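import Mathlib
import Pool.Agent.Helper93.Sph.W1
import Pool.Agent.Helper93.Sph.W2

/-! # Chaining of a path against a measure of given gauge -/

set_option autoImplicit false

open MeasureTheory Real Set Filter Topology
open scoped ENNReal NNReal

namespace Pool.Agent.P8H75.SR

open Pool.Agent.Helper93.Sph

/-- the sum of the squared increments of level `j` of a path on `[0, 1]` -/
noncomputable def Aj (S : ℝ → ℂ) (j : ℕ) : ℝ≥0∞ :=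
  ∑ i ∈ Finset.range (2 ^ j), ‖S (((i + 1 : ℕ) : ℝ) / 2 ^ j) - S ((i : ℝ) / 2 ^ j)‖ₑ ^ 2

/-- the dyadic interval of level `j` and index `c` -/
def dI (j c : ℕ) : Set ℝ := Ico ((c : ℝ) / 2 ^ j) (((c + 1 : ℕ) : ℝ) / 2 ^ j)

/-- one step of the chain -/
lemma step (S : ℝ → ℂ) {t : ℝ} (ht : 0 ≤ t) (ht1 : t < 1) (j : ℕ) :
    ‖S ((⌊t * 2 ^ (j + 1)⌋₊ : ℝ) / 2 ^ (j + 1)) - S ((⌊t * 2 ^ j⌋₊ : ℝ) / 2 ^ j)‖ₑ ^ 2 ≤
      ∑ c ∈ Finset.range (2 ^ (j + 1)), (dI (j + 1) (c + 1)).indicator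
        (fun _ => ‖S (((c + 1 : ℕ) : ℝ) / 2 ^ (j + 1)) - S ((c : ℝ) / 2 ^ (j + 1))‖ₑ ^ 2) t := by
  set a := ⌊t * 2 ^ j⌋₊ with ha
  set b := ⌊t * 2 ^ (j + 1)⌋₊ with hb
  have hR2 : t * 2 ^ (j + 1) = 2 * (t * 2 ^ j) := by ring
  have h0 : 0 ≤ t * 2 ^ j := by positivity
  have ha1 : (a : ℝ) ≤ t * 2 ^ j := Nat.floor_le h0
  have ha2 : t * 2 ^ j < (a : ℝ) + 1 := Nat.lt_floor_add_one _
  have hb1 : 2 * a ≤ b := by
    rw [hb]; refine Nat.le_floor ?_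
    push_cast; rw [hR2]; linarith
  have hb2 : b < 2 * a + 2 := by
    rw [hb, Nat.floor_lt (by positivity)]
    push_cast; rw [hR2]; linarith
  have e1 : (a : ℝ) / 2 ^ j = ((2 * a : ℕ) : ℝ) / 2 ^ (j + 1) := by
    push_cast; field_simp; ring
  rcases (show b = 2 * a ∨ b = 2 * a + 1 by omega) with h | h
  · rw [e1, h]; simp
  · have hb3 : (b : ℝ) ≤ t * 2 ^ (j + 1) := Nat.floor_le (by positivity)
    have hb4 : t * 2 ^ (j + 1) < (b : ℝ) + 1 := Nat.lt_floor_add_one _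
    have hp : (0 : ℝ) < 2 ^ (j + 1) := by positivity
    have hblt : b < 2 ^ (j + 1) := by
      have : (b : ℝ) < ((2 ^ (j + 1) : ℕ) : ℝ) := by
        push_cast
        refine hb3.trans_lt ?_
        nlinarith
      exact_mod_cast this
    have hmem : 2 * a ∈ Finset.range (2 ^ (j + 1)) := Finset.mem_range.2 (by omega)
    refine le_trans ?_ (Finset.single_le_sum (f := fun c : ℕ => (dI (j + 1) (c + 1)).indicator
        (fun _ => ‖S (((c + 1 : ℕ) : ℝ) / 2 ^ (j + 1)) - S ((c : ℝ) / 2 ^ (j + 1))‖ₑ ^ 2) t)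
        (fun _ _ => zero_le) hmem)
    have hin : t ∈ dI (j + 1) (2 * a + 1) := by
      rw [h] at hb3 hb4
      refine ⟨?_, ?_⟩
      · rw [div_le_iff₀ hp]; exact hb3
      · rw [lt_div_iff₀ hp]; push_cast at hb4 ⊢; linarith
    rw [indicator_of_mem hin, e1, h]

/-- weighted Cauchy-Schwarz -/
lemma cs_weight (s : Finset ℕ) (a : ℕ → ℝ≥0) (w : ℕ → ℝ≥0) (hw : ∀ j, w j ≠ 0) :
    (∑ j ∈ s, (a j : ℝ≥0∞)) ^ 2 ≤
      (∑ j ∈ s, (w j : ℝ≥0∞)) * ∑ j ∈ s, ((w j)⁻¹ : ℝ≥0) * (a j : ℝ≥0∞) ^ 2 := by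
  have h := Finset.sum_sq_le_sum_mul_sum_of_sq_le_mul s (r := a) (f := w)
    (g := fun j => (w j)⁻¹ * a j ^ 2) (fun j _ => zero_le) (fun j _ => zero_le)
    (fun j _ => by
      rw [← mul_assoc, mul_inv_cancel₀ (hw j), one_mul])
  exact_mod_cast h

lemma dI_meas (j c : ℕ) : MeasurableSet (dI j c) := measurableSet_Ico

/-- dyadic approximation from below -/
noncomputable def dy (J : ℕ) (t : ℝ) : ℝ := (⌊t * 2 ^ J⌋₊ : ℝ) / 2 ^ J

lemma dy_meas (J : ℕ) : Measurable (dy J) := by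
  unfold dy
  have h : Measurable fun t : ℝ => ⌊t * 2 ^ J⌋₊ :=
    Nat.measurable_floor.comp (measurable_id.mul_const _)
  have h2 : Measurable fun n : ℕ => (n : ℝ) := measurable_from_nat
  exact (h2.comp h).div_const _

/-- **chaining with weights**, finitely many levels -/
theorem chainw (S : ℝ → ℂ) {w : ℕ → ℝ≥0} (hw : ∀ j, w j ≠ 0) {t : ℝ}
    (ht : 0 ≤ t) (ht1 : t < 1) (J : ℕ) :
    ‖S (dy J t) - S 0‖ₑ ^ 2 ≤ (∑ j ∈ Finset.range J, (w j : ℝ≥0∞)) *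
      ∑ j ∈ Finset.range J, ((w j)⁻¹ : ℝ≥0) *
      ∑ c ∈ Finset.range (2 ^ (j + 1)), (dI (j + 1) (c + 1)).indicator
        (fun _ => ‖S (((c + 1 : ℕ) : ℝ) / 2 ^ (j + 1)) - S ((c : ℝ) / 2 ^ (j + 1))‖ₑ ^ 2) t := by
  have hd0 : dy 0 t = 0 := by
    have : ⌊t⌋₊ = 0 := Nat.floor_eq_zero.2 ht1
    simp [dy, this]
  have hsum : ∀ J : ℕ, ‖S (dy J t) - S 0‖ₑ ≤
      ∑ j ∈ Finset.range J, ‖S (dy (j + 1) t) - S (dy j t)‖ₑ := by
    intro J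
    induction J with
    | zero => simp [hd0]
    | succ J ih =>
      rw [Finset.sum_range_succ]
      calc ‖S (dy (J + 1) t) - S 0‖ₑ
          = ‖(S (dy J t) - S 0) + (S (dy (J + 1) t) - S (dy J t))‖ₑ := by
            congr 1; ring
        _ ≤ _ := (enorm_add_le _ _).trans (add_le_add ih le_rfl)
  refine (pow_le_pow_left' (hsum J) 2).trans ?_
  refine (cs_weight (Finset.range J) (fun j => ‖S (dy (j + 1) t) - S (dy j t)‖₊) w hw).trans ?_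
  refine mul_le_mul_right (Finset.sum_le_sum fun j _ => ?_) _
  exact mul_le_mul_right (step S ht ht1 j) _

/-- **the chain integrated against a measure**, finitely many levels -/
theorem chain_fin (S : ℝ → ℂ) {w : ℕ → ℝ≥0} (hw : ∀ j, w j ≠ 0)
    {Y : Type*} [MeasurableSpace Y] (ν : Measure Y) {g : Y → ℝ} (hg : Measurable g) (J : ℕ)
    (hν : ∀ j < J, ∀ c < 2 ^ (j + 1), ν (g ⁻¹' (dI (j + 1) (c + 1))) ≤ (w j : ℝ≥0∞) ^ 2) :
    ∫⁻ y in g ⁻¹' (Ico 0 1), ‖S (dy J (g y)) - S 0‖ₑ ^ 2 ∂ν ≤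
      (∑ j ∈ Finset.range J, (w j : ℝ≥0∞)) *
        ∑ j ∈ Finset.range J, (w j : ℝ≥0∞) * Aj S (j + 1) := by
  have hm : ∀ j c : ℕ, Measurable fun y => (dI (j + 1) (c + 1)).indicator
        (fun _ => ‖S (((c + 1 : ℕ) : ℝ) / 2 ^ (j + 1)) - S ((c : ℝ) / 2 ^ (j + 1))‖ₑ ^ 2) (g y) := by
    intro j c
    exact (measurable_const.indicator (dI_meas _ _)).comp hg
  calc ∫⁻ y in g ⁻¹' (Ico 0 1), ‖S (dy J (g y)) - S 0‖ₑ ^ 2 ∂ν
      ≤ ∫⁻ y in g ⁻¹' (Ico 0 1), (∑ j ∈ Finset.range J, (w j : ℝ≥0∞)) *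
        ∑ j ∈ Finset.range J, ((w j)⁻¹ : ℝ≥0) *
      ∑ c ∈ Finset.range (2 ^ (j + 1)), (dI (j + 1) (c + 1)).indicator
        (fun _ => ‖S (((c + 1 : ℕ) : ℝ) / 2 ^ (j + 1)) - S ((c : ℝ) / 2 ^ (j + 1))‖ₑ ^ 2) (g y) ∂ν :=
        setLIntegral_mono' (hg measurableSet_Ico) fun y hy => chainw S hw hy.1 hy.2 J
    _ ≤ ∫⁻ y, (∑ j ∈ Finset.range J, (w j : ℝ≥0∞)) *
        ∑ j ∈ Finset.range J, ((w j)⁻¹ : ℝ≥0) *
      ∑ c ∈ Finset.range (2 ^ (j + 1)), (dI (j + 1) (c + 1)).indicator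
        (fun _ => ‖S (((c + 1 : ℕ) : ℝ) / 2 ^ (j + 1)) - S ((c : ℝ) / 2 ^ (j + 1))‖ₑ ^ 2) (g y) ∂ν :=
        setLIntegral_le_lintegral _ _
    _ = (∑ j ∈ Finset.range J, (w j : ℝ≥0∞)) * ∑ j ∈ Finset.range J, ((w j)⁻¹ : ℝ≥0) *
      ∑ c ∈ Finset.range (2 ^ (j + 1)), ‖S (((c + 1 : ℕ) : ℝ) / 2 ^ (j + 1)) -
        S ((c : ℝ) / 2 ^ (j + 1))‖ₑ ^ 2 * ν (g ⁻¹' (dI (j + 1) (c + 1))) := by
        rw [lintegral_const_mul _ (Finset.measurable_sum _ fun j _ =>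
          (Finset.measurable_sum _ fun c _ => hm j c).const_mul _),
          lintegral_finsetSum _ fun j _ => (Finset.measurable_sum _ fun c _ => hm j c).const_mul _]
        congr 1
        refine Finset.sum_congr rfl fun j _ => ?_
        rw [lintegral_const_mul _ (Finset.measurable_sum _ fun c _ => hm j c),
          lintegral_finsetSum _ fun c _ => hm j c]
        congr 1
        refine Finset.sum_congr rfl fun c _ => ?_
        have : (fun y => (dI (j + 1) (c + 1)).indicator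
          (fun _ => ‖S (((c + 1 : ℕ) : ℝ) / 2 ^ (j + 1)) - S ((c : ℝ) / 2 ^ (j + 1))‖ₑ ^ 2) (g y)) =
          (g ⁻¹' (dI (j + 1) (c + 1))).indicator (fun _ =>
            ‖S (((c + 1 : ℕ) : ℝ) / 2 ^ (j + 1)) - S ((c : ℝ) / 2 ^ (j + 1))‖ₑ ^ 2) := by
          funext y; rfl
        rw [this]
        exact lintegral_indicator_const (hg (dI_meas _ _)) _
    _ ≤ _ := by
        unfold Aj
        refine mul_le_mul_right (Finset.sum_le_sum fun j hj => ?_) _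
        rw [Finset.mul_sum, Finset.mul_sum]
        refine Finset.sum_le_sum fun c hc => ?_
        have h1 := hν j (Finset.mem_range.1 hj) c (Finset.mem_range.1 hc)
        have h2 : ((w j)⁻¹ : ℝ≥0) * (w j : ℝ≥0∞) ^ 2 = w j := by
          have : (w j)⁻¹ * w j ^ 2 = w j := by
            rw [sq, ← mul_assoc, inv_mul_cancel₀ (hw j), one_mul]
          exact_mod_cast this
        calc (((w j)⁻¹ : ℝ≥0) : ℝ≥0∞) * (‖S (((c + 1 : ℕ) : ℝ) / 2 ^ (j + 1)) -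
              S ((c : ℝ) / 2 ^ (j + 1))‖ₑ ^ 2 * ν (g ⁻¹' (dI (j + 1) (c + 1))))
            ≤ (((w j)⁻¹ : ℝ≥0) : ℝ≥0∞) * (‖S (((c + 1 : ℕ) : ℝ) / 2 ^ (j + 1)) -
              S ((c : ℝ) / 2 ^ (j + 1))‖ₑ ^ 2 * (w j : ℝ≥0∞) ^ 2) := by gcongr
          _ = ((((w j)⁻¹ : ℝ≥0) : ℝ≥0∞) * (w j : ℝ≥0∞) ^ 2) * ‖S (((c + 1 : ℕ) : ℝ) / 2 ^ (j + 1)) -
              S ((c : ℝ) / 2 ^ (j + 1))‖ₑ ^ 2 := by ring
          _ = _ := by rw [h2]

/-- the majorant of a path -/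
noncomputable def Vw (w : ℕ → ℝ≥0) (S : ℝ → ℂ) : ℝ≥0∞ :=
  (∑' j, (w j : ℝ≥0∞)) * ∑' j, (w j : ℝ≥0∞) * Aj S (j + 1)

/-- **the chain integrated against a measure** -/
theorem chain_measure {S : ℝ → ℂ} (hS : Continuous S) {w : ℕ → ℝ≥0} (hw : ∀ j, w j ≠ 0)
    {Y : Type*} [MeasurableSpace Y] (ν : Measure Y) {g : Y → ℝ} (hg : Measurable g)
    (hν : ∀ j c : ℕ, c < 2 ^ (j + 1) → ν (g ⁻¹' (dI (j + 1) (c + 1))) ≤ (w j : ℝ≥0∞) ^ 2) :
    ∫⁻ y in g ⁻¹' (Ico 0 1), ‖S (g y) - S 0‖ₑ ^ 2 ∂ν ≤ Vw w S := by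
  have hlim : ∀ y ∈ g ⁻¹' (Ico 0 1), ‖S (g y) - S 0‖ₑ ^ 2 =
      liminf (fun J => ‖S (dy J (g y)) - S 0‖ₑ ^ 2) atTop := by
    intro y hy
    have hl : Tendsto (fun J => ‖S (dy J (g y)) - S 0‖ₑ ^ 2) atTop
        (𝓝 (‖S (g y) - S 0‖ₑ ^ 2)) := by
      refine ((ENNReal.continuous_pow 2).tendsto _).comp ?_
      exact (((hS.tendsto (g y)).comp (dyad_tendsto hy.1)).sub tendsto_const_nhds).enorm
    exact hl.liminf_eq.symm
  have hm : ∀ J, Measurable fun y => ‖S (dy J (g y)) - S 0‖ₑ ^ 2 := fun J =>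
    ((hS.measurable.comp ((dy_meas J).comp hg)).sub measurable_const).enorm.pow_const 2
  rw [setLIntegral_congr_fun (hg measurableSet_Ico) hlim]
  refine (lintegral_liminf_le hm).trans ?_
  refine liminf_le_of_frequently_le' (Frequently.of_forall fun J => ?_)
  refine (chain_fin S hw ν hg J fun j _ c hc => hν j c hc).trans ?_
  exact mul_le_mul' (ENNReal.sum_le_tsum _) (ENNReal.sum_le_tsum _)

end Pool.Agent.P8H75.SR
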