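import Mathlib
import Pool.Agent.P8H75.SR.A

/-! # The square function of dyadic increments of the ball partial sums -/

set_option autoImplicit false

open MeasureTheory Real Set Filter Topology
open scoped ENNReal NNReal

namespace Pool.Agent.P8H75.SR

open Pool.Agent.Helper93.Sph

lemma incr_glob {m : ℕ} {G : En (m + 1) → ℂ} (hG : MemLp G 2) {R R' : ℝ} (h0 : 0 ≤ R)
    (h : R ≤ R') :
    ∫⁻ x, ‖ps G R' x - ps G R x‖ₑ ^ 2 ≤ ∫⁻ ξ in shell (m + 1) R R', ‖G ξ‖ₑ ^ 2 := by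
  have h1 : ∀ x, ps G R' x - ps G R x = Fi ((shell (m + 1) R R').indicator G) x := fun x =>
    ps_sub hG h0 h x
  simp_rw [h1]
  exact piece_l2 hG (shell_meas _ _ _) (shell_finite _ _ _)

lemma shell_split {n : ℕ} (G : En n → ℂ) {a b c : ℝ} (hab : a ≤ b) (hbc : b ≤ c) :
    ∫⁻ ξ in shell n a c, ‖G ξ‖ₑ ^ 2 =
      (∫⁻ ξ in shell n a b, ‖G ξ‖ₑ ^ 2) + ∫⁻ ξ in shell n b c, ‖G ξ‖ₑ ^ 2 := by
  have h1 : shell n a c = shell n a b ∪ shell n b c := by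
    ext ξ
    simp only [shell, mem_union, mem_ofPred_eq]
    constructor
    · rintro ⟨h1, h2⟩
      rcases lt_or_ge ‖ξ‖ b with h | h
      · exact Or.inl ⟨h1, h⟩
      · exact Or.inr ⟨h, h2⟩
    · rintro (⟨h1, h2⟩ | ⟨h1, h2⟩)
      · exact ⟨h1, h2.trans_le hbc⟩
      · exact ⟨hab.trans h1, h2⟩
  rw [h1]
  refine lintegral_union (shell_meas _ _ _) ?_
  rw [Set.disjoint_left]
  rintro ξ ⟨_, h2⟩ ⟨h3, _⟩
  exact absurd h3 (not_le.2 h2)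

lemma shell_sum {n : ℕ} (G : En n → ℂ) {r : ℕ → ℝ} (hr : Monotone r) (N : ℕ) :
    ∑ i ∈ Finset.range N, ∫⁻ ξ in shell n (r i) (r (i + 1)), ‖G ξ‖ₑ ^ 2 =
      ∫⁻ ξ in shell n (r 0) (r N), ‖G ξ‖ₑ ^ 2 := by
  induction N with
  | zero =>
    have : shell n (r 0) (r 0) = ∅ := by
      ext ξ; simp only [shell, mem_ofPred_eq, mem_empty_iff_false, iff_false]
      rintro ⟨h1, h2⟩; linarith
    simp [this]
  | succ N ih =>
    rw [Finset.sum_range_succ, ih, ← shell_split G (hr (Nat.zero_le N)) (hr (Nat.le_succ N))]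

/-- the path of partial sums on the scale `T` -/
noncomputable def pa {n : ℕ} (G : En n → ℂ) (T : ℝ) (x : En n) : ℝ → ℂ :=
  fun t => ps G (T * (1 + t)) x

lemma pa_cont {m : ℕ} {G : En (m + 1) → ℂ} (hG : MemLp G 2) (T : ℝ) (x : En (m + 1)) :
    Continuous (pa G T x) := (ps_cont_R hG x).comp (by fun_prop)

lemma Aj_meas {m : ℕ} {G : En (m + 1) → ℂ} (hG : MemLp G 2) (T : ℝ) (j : ℕ) :
    Measurable (fun x => Aj (pa G T x) j) := by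
  unfold Aj pa
  exact Finset.measurable_sum _ fun i _ =>
    ((ps_cont_x hG _).sub (ps_cont_x hG _)).measurable.enorm.pow_const 2

lemma Aj_int {m : ℕ} {G : En (m + 1) → ℂ} (hG : MemLp G 2) {T : ℝ} (hT : 0 < T) (j : ℕ) :
    ∫⁻ x, Aj (pa G T x) j ≤ ∫⁻ ξ in shell (m + 1) T (2 * T), ‖G ξ‖ₑ ^ 2 := by
  unfold Aj pa
  have hms : ∀ i : ℕ, Measurable fun x : En (m + 1) =>
      ‖ps G (T * (1 + ((i + 1 : ℕ) : ℝ) / 2 ^ j)) x - ps G (T * (1 + (i : ℝ) / 2 ^ j)) x‖ₑ ^ 2 :=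
    fun i => ((ps_cont_x hG _).sub (ps_cont_x hG _)).measurable.enorm.pow_const 2
  rw [lintegral_finsetSum _ fun i _ => hms i]
  have hr : Monotone fun i : ℕ => T * (1 + (i : ℝ) / 2 ^ j) := by
    intro a b hab
    have : (a : ℝ) ≤ b := by exact_mod_cast hab
    simp only
    gcongr
  have h1 : ∀ i ∈ Finset.range (2 ^ j),
      ∫⁻ x, ‖ps G (T * (1 + ((i + 1 : ℕ) : ℝ) / 2 ^ j)) x - ps G (T * (1 + (i : ℝ) / 2 ^ j)) x‖ₑ ^ 2 ≤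
      ∫⁻ ξ in shell (m + 1) (T * (1 + (i : ℝ) / 2 ^ j)) (T * (1 + ((i + 1 : ℕ) : ℝ) / 2 ^ j)),
        ‖G ξ‖ₑ ^ 2 := fun i _ =>
    incr_glob hG (by positivity) (hr (Nat.le_succ i))
  refine (Finset.sum_le_sum h1).trans (le_of_eq ?_)
  rw [shell_sum G hr (2 ^ j)]
  have e1 : T * (1 + ((0 : ℕ) : ℝ) / 2 ^ j) = T := by simp
  have e2 : T * (1 + ((2 ^ j : ℕ) : ℝ) / 2 ^ j) = 2 * T := by
    push_cast
    field_simp
    ring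
  simp only [e1, e2]

lemma Vw_meas {m : ℕ} {G : En (m + 1) → ℂ} (hG : MemLp G 2) (w : ℕ → ℝ≥0) (T : ℝ) :
    Measurable (fun x => Vw w (pa G T x)) := by
  unfold Vw
  exact (Measurable.tsum fun j => (Aj_meas hG T (j + 1)).const_mul _).const_mul _

lemma Vw_int {m : ℕ} {G : En (m + 1) → ℂ} (hG : MemLp G 2) (w : ℕ → ℝ≥0) {T : ℝ} (hT : 0 < T) :
    ∫⁻ x, Vw w (pa G T x) ≤
      (∑' j, (w j : ℝ≥0∞)) ^ 2 * ∫⁻ ξ in shell (m + 1) T (2 * T), ‖G ξ‖ₑ ^ 2 := by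
  unfold Vw
  rw [lintegral_const_mul _ (Measurable.tsum fun j => (Aj_meas hG T (j + 1)).const_mul _),
    lintegral_tsum fun j => ((Aj_meas hG T (j + 1)).const_mul _).aemeasurable, sq, mul_assoc]
  refine mul_le_mul_right ?_ _
  rw [← ENNReal.tsum_mul_right]
  refine ENNReal.tsum_le_tsum fun j => ?_
  rw [lintegral_const_mul _ (Aj_meas hG T (j + 1))]
  exact mul_le_mul_right (Aj_int hG hT _) _

lemma shell_dyadic {n : ℕ} (G : En n → ℂ) :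
    ∑' k : ℤ, ∫⁻ ξ in shell n ((2 : ℝ) ^ k) (2 * (2 : ℝ) ^ k), ‖G ξ‖ₑ ^ 2 ≤ ∫⁻ ξ, ‖G ξ‖ₑ ^ 2 := by
  rw [← lintegral_iUnion (fun k => shell_meas _ _ _)]
  · exact setLIntegral_le_lintegral _ _
  · intro a b hab
    rw [Function.onFun, Set.disjoint_left]
    rintro ξ ⟨h1, h2⟩ ⟨h3, h4⟩
    have e : ∀ k : ℤ, 2 * (2 : ℝ) ^ k = (2 : ℝ) ^ (k + 1) := fun k => by
      rw [zpow_add₀ (by norm_num), zpow_one]; ring
    rw [e] at h2 h4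
    have h5 : (2 : ℝ) ^ a < (2 : ℝ) ^ (b + 1) := h1.trans_lt h4
    have h6 : (2 : ℝ) ^ b < (2 : ℝ) ^ (a + 1) := h3.trans_lt h2
    rw [zpow_lt_zpow_iff_right₀ (by norm_num)] at h5 h6
    exact hab (by omega)

/-- **the square function of the majorants** -/
theorem Vw_sum {m : ℕ} {G : En (m + 1) → ℂ} (hG : MemLp G 2) (w : ℤ → ℕ → ℝ≥0) (W : ℝ≥0∞)
    (hW : ∀ k, ∑' j, (w k j : ℝ≥0∞) ≤ W) :
    ∫⁻ x, ∑' k : ℤ, Vw (w k) (pa G ((2 : ℝ) ^ k) x) ≤ W ^ 2 * ∫⁻ ξ, ‖G ξ‖ₑ ^ 2 := by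
  rw [lintegral_tsum fun k => (Vw_meas hG _ _).aemeasurable]
  calc ∑' k : ℤ, ∫⁻ x, Vw (w k) (pa G ((2 : ℝ) ^ k) x)
      ≤ ∑' k : ℤ, W ^ 2 * ∫⁻ ξ in shell (m + 1) ((2 : ℝ) ^ k) (2 * (2 : ℝ) ^ k), ‖G ξ‖ₑ ^ 2 := by
        refine ENNReal.tsum_le_tsum fun k => (Vw_int hG (w k) (by positivity)).trans ?_
        exact mul_le_mul_left (pow_le_pow_left' (hW k) 2) _
    _ = W ^ 2 * ∑' k : ℤ, ∫⁻ ξ in shell (m + 1) ((2 : ℝ) ^ k) (2 * (2 : ℝ) ^ k), ‖G ξ‖ₑ ^ 2 :=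
        ENNReal.tsum_mul_left
    _ ≤ _ := mul_le_mul_right (shell_dyadic G) _

end Pool.Agent.P8H75.SR
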