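import Mathlib
import Pool.Agent.Helper93.Sph.A
import Pool.Agent.P8H66.WT.B

/-! # The dyadic radius maximal function on Euclidean space -/

set_option autoImplicit false

open MeasureTheory Metric Set Filter Topology
open scoped ENNReal NNReal

namespace Pool.Agent.P8H75.SR

open Pool.Agent.Helper93.Sph Pool.Agent.P8H66.WT

/-- from weak type to strong type -/
lemma strong2 {α : Type*} [MeasurableSpace α] (μ : Measure α) [SFinite μ] {F g : α → ℝ≥0∞}
    (hF : Measurable F) (hg : Measurable g) (K : ℝ≥0∞)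
    (h : ∀ l : ℝ≥0∞, l ≠ 0 → l ≠ ∞ →
      l * μ {x | 2 * l < F x} ≤ K * ∫⁻ x, {x | l < g x}.indicator g x ∂μ) :
    ∫⁻ x, F x ^ 2 ∂μ ≤ 8 * K * ∫⁻ x, g x ^ 2 ∂μ := by
  have hlay := layer μ hF (p := 2) (by norm_num)
  have hF2 : ∀ x, F x ^ (2 : ℝ) = F x ^ 2 := fun x => by norm_num
  simp_rw [hF2] at hlay
  rw [hlay]
  have key : ∀ t ∈ Ioi (0:ℝ), dens 2 t * μ {x | ENNReal.ofReal t < F x} ≤
      ∫⁻ x, {x | ENNReal.ofReal t < 2 * g x}.indicator (fun x => 4 * K * g x) x ∂μ := by
    intro t ht
    rw [mem_Ioi] at ht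
    set l : ℝ≥0∞ := ENNReal.ofReal (t / 2) with hl
    have hl2 : ENNReal.ofReal t = 2 * l := by
      rw [hl, two_mul, ← ENNReal.ofReal_add (by positivity) (by positivity)]
      congr 1; ring
    have hl0 : l ≠ 0 := by
      rw [hl, Ne, ENNReal.ofReal_eq_zero, not_le]; positivity
    have hlt : l ≠ ∞ := ENNReal.ofReal_ne_top
    have h5 : {x | ENNReal.ofReal t < 2 * g x} = {y | l < g y} := by
      ext x
      rw [mem_ofPred_eq, mem_ofPred_eq, hl2]
      exact ENNReal.mul_lt_mul_iff_right (by norm_num) (by norm_num)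
    have hd : dens 2 t = 4 * l := by
      unfold dens
      rw [hl, show (4 : ℝ≥0∞) = ENNReal.ofReal 4 by simp, ← ENNReal.ofReal_mul (by norm_num)]
      congr 1
      rw [show (2 : ℝ) - 1 = 1 by norm_num, Real.rpow_one]
      ring
    rw [h5, hd, hl2]
    calc 4 * l * μ {x | 2 * l < F x} = 4 * (l * μ {x | 2 * l < F x}) := by ring
      _ ≤ 4 * (K * ∫⁻ x, {x | l < g x}.indicator g x ∂μ) := mul_le_mul_right (h l hl0 hlt) 4
      _ = (4 * K) * ∫⁻ x, {x | l < g x}.indicator g x ∂μ := by ring
      _ = _ := by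
          rw [← lintegral_const_mul _ (hg.indicator (measurableSet_lt measurable_const hg))]
          refine lintegral_congr fun x => ?_
          simp only [indicator_apply]
          split_ifs <;> simp
  refine (setLIntegral_mono' measurableSet_Ioi key).trans ?_
  have hms : MeasurableSet {r : ℝ × α | ENNReal.ofReal r.1 < 2 * g r.2} :=
    measurableSet_lt (ENNReal.measurable_ofReal.comp measurable_fst)
      ((hg.comp measurable_snd).const_mul _)
  rw [lintegral_lintegral_swap]
  · rw [← lintegral_const_mul _ (hg.pow_const 2)]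
    refine lintegral_mono fun x => ?_
    have h1 : ∀ t ∈ Ioi (0:ℝ), {x | ENNReal.ofReal t < 2 * g x}.indicator
        (fun x => 4 * K * g x) x =
        4 * K * g x * {t : ℝ | ENNReal.ofReal t < 2 * g x}.indicator (dens 1) t := by
      intro t ht
      rw [mem_Ioi] at ht
      simp only [indicator_apply, mem_ofPred_eq]
      split_ifs
      · unfold dens
        simp
      · simp
    rw [setLIntegral_congr_fun measurableSet_Ioi h1, lintegral_const_mul _
      ((dens_meas _).indicator (measurableSet_lt ENNReal.measurable_ofReal measurable_const)),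
      rpow_eq one_pos, ENNReal.rpow_one]
    apply le_of_eq
    ring
  · have h1 : (Function.uncurry fun (t : ℝ) (x : α) => {x | ENNReal.ofReal t < 2 * g x}.indicator
        (fun x => 4 * K * g x) x) =
        {r : ℝ × α | ENNReal.ofReal r.1 < 2 * g r.2}.indicator fun r =>
          4 * K * g r.2 := by
      funext r
      simp only [Function.uncurry, indicator_apply, mem_ofPred_eq]
    rw [h1]
    exact (Measurable.indicator ((hg.comp measurable_snd).const_mul _) hms).aemeasurable

/-- average over the ball of radius `2 ^ i` -/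
noncomputable def av {n : ℕ} (f : En n → ℝ≥0∞) (i : ℤ) (x : En n) : ℝ≥0∞ :=
  (volume (closedBall x ((2:ℝ) ^ i)))⁻¹ * ∫⁻ y in closedBall x ((2:ℝ) ^ i), f y

/-- maximal function over dyadic radii -/
noncomputable def Mx {n : ℕ} (f : En n → ℝ≥0∞) (x : En n) : ℝ≥0∞ := ⨆ i : ℤ, av f i x

lemma vcb {n : ℕ} (x : En n) {r : ℝ} (hr : 0 ≤ r) :
    volume (closedBall x r) = ENNReal.ofReal r ^ n * volume (ball (0 : En n) 1) := by
  rw [Measure.addHaar_closedBall _ _ hr, finrank_euclideanSpace, Fintype.card_fin,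
    ENNReal.ofReal_pow hr]

lemma vcb_pos {n : ℕ} (x : En n) {r : ℝ} (hr : 0 < r) : volume (closedBall x r) ≠ 0 :=
  (measure_closedBall_pos volume x hr).ne'

lemma vcb_fin {n : ℕ} (x : En n) (r : ℝ) : volume (closedBall x r) ≠ ∞ :=
  (isCompact_closedBall x r).measure_lt_top.ne

lemma av_meas {n : ℕ} {f : En n → ℝ≥0∞} (hf : Measurable f) (i : ℤ) : Measurable (av f i) := by
  unfold av
  have h1 : ∀ x : En n, volume (closedBall x ((2:ℝ) ^ i)) =
      ENNReal.ofReal ((2:ℝ) ^ i) ^ n * volume (ball (0 : En n) 1) := fun x => vcb x (by positivity)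
  simp_rw [h1]
  refine Measurable.const_mul ?_ _
  have h2 : ∀ x : En n, ∫⁻ y in closedBall x ((2:ℝ) ^ i), f y =
      ∫⁻ y, {z : En n × En n | dist z.2 z.1 ≤ (2:ℝ) ^ i}.indicator (fun z => f z.2) (x, y) := by
    intro x
    rw [← lintegral_indicator isClosed_closedBall.measurableSet]
    refine lintegral_congr fun y => ?_
    by_cases h : y ∈ closedBall x ((2:ℝ) ^ i)
    · rw [indicator_of_mem h, indicator_of_mem (show (x, y) ∈ {z : En n × En n |
        dist z.2 z.1 ≤ (2:ℝ) ^ i} from h)]
    · rw [indicator_of_notMem h, indicator_of_notMem (show (x, y) ∉ {z : En n × En n |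
        dist z.2 z.1 ≤ (2:ℝ) ^ i} from h)]
  simp_rw [h2]
  refine Measurable.lintegral_prod_right' (Measurable.indicator (hf.comp measurable_snd) ?_)
  exact measurableSet_le (measurable_snd.dist measurable_fst) measurable_const

lemma Mx_meas {n : ℕ} {f : En n → ℝ≥0∞} (hf : Measurable f) : Measurable (Mx f) :=
  Measurable.iSup fun i => av_meas hf i

/-- weak type -/
lemma Mx_weak {m : ℕ} (f : En (m + 1) → ℝ≥0∞) (lam : ℝ≥0∞) (hl0 : lam ≠ 0) (hl : lam ≠ ∞) :
    lam * volume {x | lam < Mx f x} ≤ 4 ^ (m + 1) * ∫⁻ x, f x := by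
  classical
  rcases eq_or_ne (∫⁻ x, f x) ∞ with hfin | hfin
  · rw [hfin, ENNReal.mul_top (by positivity)]; exact le_top
  set A := {x | lam < Mx f x} with hA
  have hex : ∀ x : En (m + 1), ∃ r : ℝ, x ∈ A → 0 < r ∧
      lam * volume (closedBall x r) < ∫⁻ y in closedBall x r, f y := by
    intro x
    by_cases h : x ∈ A
    · rw [hA, mem_ofPred_eq, Mx, lt_iSup_iff] at h
      obtain ⟨i, hi⟩ := h
      refine ⟨(2:ℝ) ^ i, fun _ => ⟨by positivity, ?_⟩⟩
      have hp : (0:ℝ) < (2:ℝ) ^ i := by positivity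
      have h0 := vcb_pos x hp
      have ht := vcb_fin x ((2:ℝ) ^ i)
      rw [av, mul_comm, ← div_eq_mul_inv] at hi
      exact (ENNReal.lt_div_iff_mul_lt (Or.inl h0) (Or.inl ht)).1 hi
    · exact ⟨0, fun h' => absurd h' h⟩
  choose r hr using hex
  set v := volume (ball (0 : En (m + 1)) 1) with hv
  have hv0 : v ≠ 0 := (measure_ball_pos volume _ one_pos).ne'
  have hvt : v ≠ ∞ := measure_ball_lt_top.ne
  -- bounded radii
  have hbd : ∃ R : ℝ, ∀ x ∈ A, r x ≤ R := by
    set B := (∫⁻ x, f x) / (lam * v) with hB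
    have hlv : lam * v ≠ 0 := mul_ne_zero hl0 hv0
    have hlvt : lam * v ≠ ∞ := ENNReal.mul_ne_top hl hvt
    have hBfin : B ≠ ∞ := (ENNReal.div_lt_top hfin hlv).ne
    refine ⟨max 1 B.toReal, fun x hx => ?_⟩
    obtain ⟨h1, h2⟩ := hr x hx
    have h3 : ENNReal.ofReal (r x) ^ (m + 1) ≤ B := by
      rw [hB, ENNReal.le_div_iff_mul_le (Or.inl hlv) (Or.inl hlvt)]
      rw [vcb x h1.le] at h2
      calc ENNReal.ofReal (r x) ^ (m + 1) * (lam * v) = lam * (ENNReal.ofReal (r x) ^ (m + 1) * v) := by
            ring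
        _ ≤ _ := h2.le.trans (setLIntegral_le_lintegral _ _)
    by_contra hcon
    push Not at hcon
    have h4 : 1 < r x := lt_of_le_of_lt (le_max_left _ _) hcon
    have h5 : B.toReal < r x := lt_of_le_of_lt (le_max_right _ _) hcon
    have h6 : ENNReal.ofReal (r x) ≤ ENNReal.ofReal (r x) ^ (m + 1) := by
      have h7 : 1 ≤ ENNReal.ofReal (r x) := by
        rw [← ENNReal.ofReal_one]; exact ENNReal.ofReal_le_ofReal (by linarith)
      calc ENNReal.ofReal (r x) = ENNReal.ofReal (r x) ^ 1 := by rw [pow_one]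
        _ ≤ _ := pow_le_pow_right₀ h7 (by omega)
    have h8 := h6.trans h3
    rw [← ENNReal.ofReal_toReal hBfin] at h8
    have h9 := (ENNReal.ofReal_le_ofReal_iff ENNReal.toReal_nonneg).1 h8
    linarith
  obtain ⟨R, hR⟩ := hbd
  obtain ⟨u, huA, hudis, hucov⟩ := Vitali.exists_disjoint_subfamily_covering_enlargement_closedBall
    A (fun x => x) r R hR 4 (by norm_num)
  have hucount : u.Countable := hudis.countable_of_nonempty_interior (fun x hx => by
    refine ⟨x, ?_⟩
    apply ball_subset_interior_closedBall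
    exact mem_ball_self (hr x (huA hx)).1)
  have h1 : volume A ≤ ∑' x : u, volume (closedBall (x : En (m + 1)) (4 * r x)) := by
    calc volume A ≤ volume (⋃ x ∈ u, closedBall x (4 * r x)) := by
          apply measure_mono
          intro x hx
          obtain ⟨b, hb, hsub⟩ := hucov x hx
          exact Set.mem_iUnion₂.2 ⟨b, hb, hsub (mem_closedBall_self (hr x hx).1.le)⟩
      _ ≤ _ := measure_biUnion_le volume hucount _
  calc lam * volume A ≤ lam * ∑' x : u, volume (closedBall (x : En (m + 1)) (4 * r x)) :=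
        mul_le_mul' le_rfl h1
    _ = ∑' x : u, lam * volume (closedBall (x : En (m + 1)) (4 * r x)) := by
        rw [ENNReal.tsum_mul_left]
    _ ≤ ∑' x : u, 4 ^ (m + 1) * ∫⁻ y in closedBall (x : En (m + 1)) (r x), f y := by
        apply ENNReal.tsum_le_tsum
        intro x
        obtain ⟨h2, h3⟩ := hr x (huA x.2)
        have e0 : volume (closedBall (x : En (m + 1)) (4 * r x)) =
            4 ^ (m + 1) * volume (closedBall (x : En (m + 1)) (r x)) := by
          rw [vcb _ (by positivity), vcb _ h2.le, ENNReal.ofReal_mul (by norm_num), mul_pow]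
          have e : ENNReal.ofReal 4 = 4 := by norm_num
          rw [e]; ring
        rw [e0]
        calc lam * (4 ^ (m + 1) * volume (closedBall (x : En (m + 1)) (r x)))
            = 4 ^ (m + 1) * (lam * volume (closedBall (x : En (m + 1)) (r x))) := by ring
          _ ≤ _ := mul_le_mul' le_rfl h3.le
    _ = 4 ^ (m + 1) * ∑' x : u, ∫⁻ y in closedBall (x : En (m + 1)) (r x), f y :=
        ENNReal.tsum_mul_left
    _ = 4 ^ (m + 1) * ∫⁻ y in ⋃ x ∈ u, closedBall x (r x), f y := by
        rw [lintegral_biUnion hucount (fun x _ => isClosed_closedBall.measurableSet) hudis]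
    _ ≤ _ := by gcongr; exact Measure.restrict_le_self

/-- **the maximal theorem** -/
theorem Mx_strong {m : ℕ} {f : En (m + 1) → ℝ≥0∞} (hf : Measurable f) :
    ∫⁻ x, Mx f x ^ 2 ≤ 8 * 4 ^ (m + 1) * ∫⁻ x, f x ^ 2 := by
  refine strong2 volume (Mx_meas hf) hf (4 ^ (m + 1)) fun l hl0 hlt => ?_
  have hsplit : ∀ x, Mx f x ≤ Mx ({y | l < f y}.indicator f) x + l := by
    intro x
    refine iSup_le fun i => ?_
    have h1 : ∀ y, f y ≤ {y | l < f y}.indicator f y + l := by
      intro y
      by_cases h : y ∈ {y | l < f y}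
      · rw [indicator_of_mem h]
        exact le_self_add
      · rw [indicator_of_notMem h, zero_add]
        exact not_lt.1 h
    have hp : (0:ℝ) < (2:ℝ) ^ i := by positivity
    calc av f i x ≤ (volume (closedBall x ((2:ℝ) ^ i)))⁻¹ *
          ∫⁻ y in closedBall x ((2:ℝ) ^ i), ({y | l < f y}.indicator f y + l) := by
          unfold av
          gcongr with y
          exact h1 y
      _ = av ({y | l < f y}.indicator f) i x +
          (volume (closedBall x ((2:ℝ) ^ i)))⁻¹ * (l * volume (closedBall x ((2:ℝ) ^ i))) := by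
          rw [lintegral_add_right _ measurable_const, setLIntegral_const, mul_add, av]
      _ = av ({y | l < f y}.indicator f) i x + l := by
          congr 1
          rw [mul_left_comm, ENNReal.inv_mul_cancel (vcb_pos x hp) (vcb_fin x _), mul_one]
      _ ≤ _ := by
          gcongr
          exact le_iSup (fun i => av ({y | l < f y}.indicator f) i x) i
  have hsub : {x | 2 * l < Mx f x} ⊆ {x | l < Mx ({y | l < f y}.indicator f) x} := by
    intro x hx
    rw [mem_ofPred_eq, two_mul] at hx
    rw [mem_ofPred_eq]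
    exact lt_of_add_lt_add_right (hx.trans_le (hsplit x))
  calc l * volume {x | 2 * l < Mx f x} ≤ l * volume {x | l < Mx ({y | l < f y}.indicator f) x} := by
        gcongr
    _ ≤ _ := Mx_weak _ l hl0 hlt

end Pool.Agent.P8H75.SR
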