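import Mathlib
import Pool.Agent.P8H75.SR.H
import Pool.Agent.Helper93.Sph.W1

/-! # Gaussian means are dominated by the maximal function -/

set_option autoImplicit false

open MeasureTheory Metric Real Set Filter Topology
open scoped ENNReal NNReal RealInnerProductSpace

namespace Pool.Agent.P8H75.SR

open Pool.Agent.Helper93.Sph

/-- the Gaussian of scale `2 ^ (-k)` with integral one -/
noncomputable def gK {n : ℕ} (k : ℤ) (y : En n) : ℝ :=
  ((2:ℝ) ^ k) ^ n * rexp (-(π * ((2:ℝ) ^ k) ^ 2) * ‖y‖ ^ 2)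

/-- its Fourier transform -/
noncomputable def mK {n : ℕ} (k : ℤ) (ξ : En n) : ℝ :=
  rexp (-(π / ((2:ℝ) ^ k) ^ 2) * ‖ξ‖ ^ 2)

lemma gK_nonneg {n : ℕ} (k : ℤ) (y : En n) : 0 ≤ gK k y := by unfold gK; positivity

lemma gK_cont {n : ℕ} (k : ℤ) : Continuous (gK (n := n) k) := by unfold gK; fun_prop

lemma mK_cont {n : ℕ} (k : ℤ) : Continuous (mK (n := n) k) := by unfold mK; fun_prop

lemma gK_int {n : ℕ} (k : ℤ) : Integrable (gK (n := n) k) :=
  (gint (by positivity)).const_mul _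

lemma gK_ft {n : ℕ} (k : ℤ) (w : En n) :
    ∫ y : En n, Complex.exp (2 * π * Complex.I * ((⟪w, y⟫ : ℝ) : ℂ)) * ((gK k y : ℝ) : ℂ)
      = ((mK k w : ℝ) : ℂ) := by
  have h := gauss_ft (n := n) (b := π * ((2:ℝ) ^ k) ^ 2) (by positivity) w
  have e1 : ∀ y : En n, Complex.exp (2 * π * Complex.I * ((⟪w, y⟫ : ℝ) : ℂ)) * ((gK k y : ℝ) : ℂ) =
      ((((2:ℝ) ^ k) ^ n : ℝ) : ℂ) * (Complex.exp (2 * π * Complex.I * ((⟪w, y⟫ : ℝ) : ℂ)) *
        ((rexp (-(π * ((2:ℝ) ^ k) ^ 2) * ‖y‖ ^ 2) : ℝ) : ℂ)) := by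
    intro y
    unfold gK
    push_cast
    ring
  simp_rw [e1]
  rw [integral_const_mul, h, ← Complex.ofReal_mul]
  congr 1
  unfold mK
  have hp : (0:ℝ) < (2:ℝ) ^ k := by positivity
  have e2 : (π / (π * ((2:ℝ) ^ k) ^ 2)) ^ ((n : ℝ) / 2) = (((2:ℝ) ^ k) ^ n)⁻¹ := by
    rw [show π / (π * ((2:ℝ) ^ k) ^ 2) = (((2:ℝ) ^ k) ^ 2)⁻¹ by field_simp,
      Real.inv_rpow (by positivity), ← Real.rpow_natCast ((2:ℝ) ^ k) 2, ← Real.rpow_mul hp.le,
      ← Real.rpow_natCast ((2:ℝ) ^ k) n]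
    congr 2
    push_cast; ring
  rw [e2, ← mul_assoc, mul_inv_cancel₀ (by positivity), one_mul]
  congr 2
  field_simp

lemma ek_neg_eq {n : ℕ} (x y ξ : En n) :
    ek (x - y) ξ = ek x ξ * Complex.exp (2 * π * Complex.I * ((⟪-ξ, y⟫ : ℝ) : ℂ)) := by
  rw [sub_eq_add_neg, ek_add]
  congr 1
  rw [ek, inner_neg_left, inner_neg_left, real_inner_comm]

/-- Gaussian means as multipliers -/
lemma Fi_gauss {n : ℕ} {F : En n → ℂ} (hF : Integrable F) (k : ℤ) (x : En n) :
    Fi (fun ξ => ((mK k ξ : ℝ) : ℂ) * F ξ) x = ∫ y, Fi F (x - y) * ((gK k y : ℝ) : ℂ) := by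
  set H : En n → En n → ℂ := fun y ξ => (ek (x - y) ξ * F ξ) * ((gK k y : ℝ) : ℂ) with hH
  have hHm : AEStronglyMeasurable (Function.uncurry H) (volume.prod volume) := by
    have c1 : AEStronglyMeasurable (fun p : En n × En n => ek (x - p.1) p.2)
        (volume.prod volume) :=
      (ek_cont.comp (by fun_prop : Continuous fun p : En n × En n => (x - p.1, p.2))).aestronglyMeasurable
    have c2 : AEStronglyMeasurable (fun p : En n × En n => ((gK k p.1 : ℝ) : ℂ))
        (volume.prod volume) :=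
      (Complex.continuous_ofReal.comp ((gK_cont k).comp continuous_fst)).aestronglyMeasurable
    exact (c1.mul (hF.aestronglyMeasurable.comp_snd)).mul c2
  have hHi : Integrable (Function.uncurry H) (volume.prod volume) := by
    have h1 : Integrable (fun p : En n × En n => gK k p.1 * ‖F p.2‖)
        (volume.prod volume) := (gK_int k).mul_prod hF.norm
    refine h1.mono' hHm (Eventually.of_forall fun p => le_of_eq ?_)
    simp only [Function.uncurry, hH]
    rw [norm_mul, norm_mul, ek_norm, one_mul, Complex.norm_real,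
      Real.norm_of_nonneg (gK_nonneg _ _), mul_comm]
  have e1 : ∀ y, Fi F (x - y) * ((gK k y : ℝ) : ℂ) = ∫ ξ, H y ξ := by
    intro y
    simp only [hH]
    rw [integral_mul_const, Fi]
  simp_rw [e1]
  rw [integral_integral_swap hHi, Fi]
  refine integral_congr_ae (Eventually.of_forall fun ξ => ?_)
  simp only [hH]
  have e2 : ∀ y, ek (x - y) ξ * F ξ * ((gK k y : ℝ) : ℂ) = (ek x ξ * F ξ) *
      (Complex.exp (2 * π * Complex.I * ((⟪-ξ, y⟫ : ℝ) : ℂ)) * ((gK k y : ℝ) : ℂ)) := by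
    intro y
    rw [ek_neg_eq]; ring
  simp_rw [e2]
  rw [integral_const_mul, gK_ft]
  have e3 : mK k (-ξ) = mK k ξ := by unfold mK; rw [norm_neg]
  rw [e3]; ring

/-- the layer coefficients -/
noncomputable def cl (i : ℕ) : ℝ := rexp (π / 4 - π * 4 ^ i / 4)

/-- the constant of the domination -/
noncomputable def Cg (n : ℕ) : ℝ≥0∞ :=
  (∑' i : ℕ, ENNReal.ofReal (cl i * ((2:ℝ) ^ i) ^ n)) * volume (ball (0 : En n) 1)

lemma Cg_lt (n : ℕ) : Cg n < ∞ := by
  refine ENNReal.mul_lt_top ?_ measure_ball_lt_top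
  have hs : Summable fun i : ℕ => cl i * ((2:ℝ) ^ i) ^ n := by
    have h1 := Real.summable_pow_mul_exp_neg_nat_mul n (r := π / 4) (by positivity)
    have h2 := (h1.comp_injective (i := fun i : ℕ => 2 ^ i)
      (Nat.pow_right_injective le_rfl)).mul_left (rexp (π / 4))
    refine Summable.of_nonneg_of_le (fun i => by unfold cl; positivity) (fun i => ?_) h2
    simp only [Function.comp]
    push_cast
    unfold cl
    rw [sub_eq_add_neg, Real.exp_add]
    have h3 : (2:ℝ) ^ i ≤ 4 ^ i := pow_le_pow_left₀ (by norm_num) (by norm_num) i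
    have h4 : rexp (-(π * 4 ^ i / 4)) ≤ rexp (-(π / 4) * 2 ^ i) := by
      refine Real.exp_le_exp.2 ?_
      have := pi_pos
      nlinarith
    calc rexp (π / 4) * rexp (-(π * 4 ^ i / 4)) * (2 ^ i) ^ n
        ≤ rexp (π / 4) * rexp (-(π / 4) * 2 ^ i) * (2 ^ i) ^ n := by gcongr
      _ = _ := by ring
  rw [← ENNReal.ofReal_tsum_of_nonneg (fun i => by unfold cl; positivity) hs]
  exact ENNReal.ofReal_lt_top

/-- pointwise domination by layers -/
lemma gK_layer {n : ℕ} (k : ℤ) (y : En n) :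
    ENNReal.ofReal (gK k y) ≤ ∑' i : ℕ, ENNReal.ofReal (((2:ℝ) ^ k) ^ n * cl i) *
      (closedBall (0 : En n) ((2:ℝ) ^ ((i : ℤ) - k))).indicator 1 y := by
  have hp : (0:ℝ) < (2:ℝ) ^ k := by positivity
  set r := (2:ℝ) ^ k * ‖y‖ with hr
  have hr0 : 0 ≤ r := by positivity
  have key : ∀ i : ℕ, r ≤ 2 ^ i → rexp (-(π * r ^ 2)) ≤ cl i →
      ENNReal.ofReal (gK k y) ≤ ∑' i : ℕ, ENNReal.ofReal (((2:ℝ) ^ k) ^ n * cl i) *
      (closedBall (0 : En n) ((2:ℝ) ^ ((i : ℤ) - k))).indicator 1 y := by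
    intro i hi hc
    refine le_trans ?_ (ENNReal.le_tsum i)
    have hmem : y ∈ closedBall (0 : En n) ((2:ℝ) ^ ((i : ℤ) - k)) := by
      rw [mem_closedBall_zero_iff, zpow_sub₀ (by norm_num), zpow_natCast, le_div_iff₀ hp, mul_comm]
      exact hi
    rw [indicator_of_mem hmem, Pi.one_apply, mul_one]
    refine ENNReal.ofReal_le_ofReal ?_
    unfold gK
    have e : -(π * ((2:ℝ) ^ k) ^ 2) * ‖y‖ ^ 2 = -(π * r ^ 2) := by rw [hr]; ring
    rw [e]
    gcongr
  rcases lt_or_ge r 1 with h | h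
  · refine key 0 (by simpa using h.le) ?_
    have : cl 0 = 1 := by simp [cl]
    rw [this, Real.exp_le_one_iff]
    have := pi_pos
    nlinarith [sq_nonneg r]
  · obtain ⟨j, hj1, hj2⟩ := exists_nat_pow_near h (by norm_num : (1:ℝ) < 2)
    refine key (j + 1) hj2.le ?_
    unfold cl
    refine Real.exp_le_exp.2 ?_
    have h1 : (4:ℝ) ^ j ≤ r ^ 2 := by
      calc (4:ℝ) ^ j = (2 ^ j) ^ 2 := by rw [← pow_mul, mul_comm, pow_mul]; norm_num
        _ ≤ _ := pow_le_pow_left₀ (by positivity) hj1 2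
    have h2 := mul_le_mul_of_nonneg_left h1 pi_pos.le
    have h3 : (4:ℝ) ^ (j + 1) = 4 * 4 ^ j := by ring
    have := pi_pos
    rw [h3]
    linarith

/-- domination by the maximal function -/
lemma gK_dom {n : ℕ} {h : En n → ℝ≥0∞} (hh : Measurable h) (k : ℤ) (x : En n) :
    ∫⁻ y, h (x - y) * ENNReal.ofReal (gK k y) ≤ Cg n * Mx h x := by
  have hp : (0:ℝ) < (2:ℝ) ^ k := by positivity
  have hm : ∀ i : ℕ, Measurable fun y : En n => h (x - y) *
      (ENNReal.ofReal (((2:ℝ) ^ k) ^ n * cl i) *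
      (closedBall (0 : En n) ((2:ℝ) ^ ((i : ℤ) - k))).indicator 1 y) := fun i =>
    (hh.comp (measurable_const.sub measurable_id)).mul
      ((measurable_one.indicator isClosed_closedBall.measurableSet).const_mul _)
  calc ∫⁻ y, h (x - y) * ENNReal.ofReal (gK k y)
      ≤ ∫⁻ y, ∑' i : ℕ, h (x - y) * (ENNReal.ofReal (((2:ℝ) ^ k) ^ n * cl i) *
      (closedBall (0 : En n) ((2:ℝ) ^ ((i : ℤ) - k))).indicator 1 y) := by
        refine lintegral_mono fun y => ?_
        rw [ENNReal.tsum_mul_left]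
        exact mul_le_mul_right (gK_layer k y) _
    _ = ∑' i : ℕ, ∫⁻ y, h (x - y) * (ENNReal.ofReal (((2:ℝ) ^ k) ^ n * cl i) *
      (closedBall (0 : En n) ((2:ℝ) ^ ((i : ℤ) - k))).indicator 1 y) :=
        lintegral_tsum fun i => (hm i).aemeasurable
    _ ≤ ∑' i : ℕ, ENNReal.ofReal (cl i * ((2:ℝ) ^ i) ^ n) * volume (ball (0 : En n) 1) * Mx h x := by
        refine ENNReal.tsum_le_tsum fun i => ?_
        set ρ : ℝ := (2:ℝ) ^ ((i : ℤ) - k) with hρ
        have hρ0 : 0 < ρ := by positivity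
        have e1 : ∫⁻ y, h (x - y) * (ENNReal.ofReal (((2:ℝ) ^ k) ^ n * cl i) *
            (closedBall (0 : En n) ρ).indicator 1 y) =
            ENNReal.ofReal (((2:ℝ) ^ k) ^ n * cl i) * ∫⁻ y in closedBall x ρ, h y := by
          rw [← lintegral_indicator isClosed_closedBall.measurableSet,
            ← lintegral_sub_left_eq_self _ x, ← lintegral_const_mul' _ _ ENNReal.ofReal_ne_top]
          refine lintegral_congr fun y => ?_
          have hiff : x - y ∈ closedBall (0 : En n) ρ ↔ y ∈ closedBall x ρ := by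
            rw [mem_closedBall, mem_closedBall, dist_zero_right, dist_eq_norm, norm_sub_rev]
          rw [sub_sub_cancel]
          by_cases hy : y ∈ closedBall x ρ
          · rw [indicator_of_mem hy, indicator_of_mem (hiff.2 hy), Pi.one_apply]; ring
          · rw [indicator_of_notMem hy, indicator_of_notMem (fun h' => hy (hiff.1 h'))]; simp
        rw [e1]
        have e2 : ∫⁻ y in closedBall x ρ, h y ≤ volume (closedBall x ρ) * Mx h x := by
          calc ∫⁻ y in closedBall x ρ, h y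
              = volume (closedBall x ρ) * av h ((i : ℤ) - k) x := by
                rw [av, ← mul_assoc, ENNReal.mul_inv_cancel (vcb_pos x hρ0) (vcb_fin x _), one_mul]
            _ ≤ _ := mul_le_mul_right (le_iSup (fun i => av h i x) ((i : ℤ) - k)) _
        refine (mul_le_mul_right e2 _).trans (le_of_eq ?_)
        rw [vcb x hρ0.le, ← mul_assoc, ← mul_assoc, ← ENNReal.ofReal_pow hρ0.le,
          ← ENNReal.ofReal_mul (by unfold cl; positivity)]
        congr 3
        rw [hρ, zpow_sub₀ (by norm_num), zpow_natCast, div_pow]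
        field_simp
    _ = _ := by
        rw [ENNReal.tsum_mul_right, ENNReal.tsum_mul_right, Cg]

/-- **the Gaussian means of `Fi F` are dominated by the maximal function** -/
theorem mean_dom {n : ℕ} {F : En n → ℂ} (hF : Integrable F) (k : ℤ) (x : En n) :
    ‖Fi (fun ξ => ((mK k ξ : ℝ) : ℂ) * F ξ) x‖ₑ ≤ Cg n * Mx (fun y => ‖Fi F y‖ₑ) x := by
  rw [Fi_gauss hF]
  refine (enorm_integral_le_lintegral_enorm _).trans ?_
  refine le_trans (le_of_eq ?_) (gK_dom (h := fun y => ‖Fi F y‖ₑ)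
    (Fi_cont hF).measurable.enorm k x)
  refine lintegral_congr fun y => ?_
  rw [enorm_mul]
  congr 1
  rw [← ofReal_norm, Complex.norm_real, Real.norm_of_nonneg (gK_nonneg _ _)]

end Pool.Agent.P8H75.SR
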