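import Mathlib
import Pool.Agent.P8H75.SR.L1

/-! # The lacunary maximal function of the ball partial sums -/

set_option autoImplicit false

open MeasureTheory Metric Real Set Filter Topology
open scoped ENNReal NNReal RealInnerProductSpace

namespace Pool.Agent.P8H75.SR

open Pool.Agent.Helper93.Sph

/-- difference of the ball multiplier and the Gaussian multiplier -/
noncomputable def dk {n : ℕ} (k : ℤ) (ξ : En n) : ℝ :=
  (if ‖ξ‖ < (2:ℝ) ^ k then 1 else 0) - mK k ξ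

lemma dk_meas {n : ℕ} (k : ℤ) : Measurable (dk (n := n) k) := by
  unfold dk
  exact (Measurable.ite (measurableSet_lt measurable_norm measurable_const) measurable_const
    measurable_const).sub (mK_cont k).measurable

lemma mK_le {n : ℕ} (k : ℤ) (ξ : En n) : mK k ξ ≤ 1 := by
  unfold mK
  rw [Real.exp_le_one_iff]
  have : 0 ≤ π / ((2:ℝ) ^ k) ^ 2 := by positivity
  nlinarith [sq_nonneg ‖ξ‖]

lemma mK_nonneg {n : ℕ} (k : ℤ) (ξ : En n) : 0 ≤ mK k ξ := (exp_pos _).le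

lemma dk_abs {n : ℕ} (k : ℤ) (ξ : En n) : |dk k ξ| ≤ 1 := by
  have h1 := mK_le k ξ
  have h2 := mK_nonneg k ξ
  unfold dk
  rw [abs_le]
  split_ifs <;> constructor <;> linarith

/-- the constant of the square function -/
noncomputable def Cd : ℝ≥0∞ := 10 * (1 - 4⁻¹)⁻¹ + (1 - 4⁻¹)⁻¹

lemma Cd_lt : Cd < ∞ := by
  have h : ((1 : ℝ≥0∞) - 4⁻¹)⁻¹ < ∞ := by
    rw [ENNReal.inv_lt_top, tsub_pos_iff_lt]
    exact ENNReal.inv_lt_one.2 (by norm_num)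
  exact ENNReal.add_lt_top.2 ⟨ENNReal.mul_lt_top (by norm_num) h, h⟩

lemma dk_sum {n : ℕ} (ξ : En n) : ∑' k : ℤ, ENNReal.ofReal (dk k ξ ^ 2) ≤ Cd := by
  rcases eq_or_lt_of_le (norm_nonneg ξ) with h0 | hpos
  · have : ∀ k : ℤ, ENNReal.ofReal (dk k ξ ^ 2) = 0 := by
      intro k
      have : dk k ξ = 0 := by
        unfold dk mK
        rw [← h0, if_pos (by positivity)]
        simp
      rw [this]; simp
    simp [this]
  obtain ⟨k0, h1, h2⟩ := exists_mem_Ico_zpow hpos (by norm_num : (1:ℝ) < 2)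
  have hA : ∀ i : ℕ, ENNReal.ofReal (dk (k0 + 1 + (i : ℤ)) ξ ^ 2) ≤ 10 * (4⁻¹ : ℝ≥0∞) ^ i := by
    intro i
    set u : ℝ := π / ((2:ℝ) ^ (k0 + 1 + (i : ℤ))) ^ 2 * ‖ξ‖ ^ 2 with hu
    have hk : (2:ℝ) ^ (k0 + 1 + (i : ℤ)) = (2:ℝ) ^ (k0 + 1) * 2 ^ i := by
      rw [zpow_add₀ (by norm_num), zpow_natCast]
    have hlt : ‖ξ‖ < (2:ℝ) ^ (k0 + 1 + (i : ℤ)) := by
      rw [hk]
      calc ‖ξ‖ < (2:ℝ) ^ (k0 + 1) := h2
        _ ≤ (2:ℝ) ^ (k0 + 1) * 2 ^ i := le_mul_of_one_le_right (by positivity)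
          (one_le_pow₀ (by norm_num))
    have hd : dk (k0 + 1 + (i : ℤ)) ξ = 1 - rexp (-u) := by
      unfold dk mK
      rw [if_pos hlt, hu]
      ring_nf
    have hu0 : 0 ≤ u := by positivity
    have hu1 : u ≤ π * (1 / 4 ^ i) := by
      rw [hu, hk]
      have h3 : ‖ξ‖ ^ 2 ≤ ((2:ℝ) ^ (k0 + 1)) ^ 2 := pow_le_pow_left₀ (norm_nonneg _) h2.le 2
      have h4 : ((2:ℝ) ^ i) ^ 2 = 4 ^ i := by rw [← pow_mul, mul_comm, pow_mul]; norm_num
      rw [mul_pow, h4]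
      have hp : (0:ℝ) < ((2:ℝ) ^ (k0 + 1)) ^ 2 := by positivity
      calc π / (((2:ℝ) ^ (k0 + 1)) ^ 2 * 4 ^ i) * ‖ξ‖ ^ 2
          ≤ π / (((2:ℝ) ^ (k0 + 1)) ^ 2 * 4 ^ i) * ((2:ℝ) ^ (k0 + 1)) ^ 2 := by gcongr
        _ = _ := by field_simp
    have h5 : 0 ≤ 1 - rexp (-u) := by
      have := Real.exp_le_one_iff.2 (neg_nonpos.2 hu0)
      linarith
    have h6 : 1 - rexp (-u) ≤ u := by
      have := Real.add_one_le_exp (-u)
      linarith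
    have h7 : (1 - rexp (-u)) ^ 2 ≤ 10 * (1 / 4 ^ i) := by
      have h8 : (1 - rexp (-u)) ^ 2 ≤ (π * (1 / 4 ^ i)) ^ 2 :=
        pow_le_pow_left₀ h5 (h6.trans hu1) 2
      refine h8.trans ?_
      have h9 : π ^ 2 ≤ 10 := by
        have := Real.pi_lt_d2
        have := pi_pos
        nlinarith
      have h10 : (1:ℝ) / 4 ^ i ≤ 1 := by
        rw [div_le_one (by positivity)]; exact one_le_pow₀ (by norm_num)
      have h11 : (0:ℝ) ≤ 1 / 4 ^ i := by positivity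
      calc (π * (1 / 4 ^ i)) ^ 2 = π ^ 2 * ((1 / 4 ^ i) * (1 / 4 ^ i)) := by ring
        _ ≤ 10 * ((1 / 4 ^ i) * 1) := by gcongr
        _ = _ := by ring
    rw [hd]
    refine (ENNReal.ofReal_le_ofReal h7).trans (le_of_eq ?_)
    rw [ENNReal.ofReal_mul (by norm_num), one_div, ENNReal.ofReal_inv_of_pos (by positivity),
      ENNReal.ofReal_pow (by norm_num), ENNReal.inv_pow]
    simp
  have hB : ∀ i : ℕ, ENNReal.ofReal (dk (k0 + 1 + (-((i : ℤ) + 1))) ξ ^ 2) ≤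
      (4⁻¹ : ℝ≥0∞) ^ i := by
    intro i
    have hkk : k0 + 1 + (-((i : ℤ) + 1)) = k0 - i := by ring
    rw [hkk]
    have hk : (2:ℝ) ^ (k0 - (i : ℤ)) = (2:ℝ) ^ k0 / 2 ^ i := by
      rw [zpow_sub₀ (by norm_num), zpow_natCast]
    set u : ℝ := π / ((2:ℝ) ^ (k0 - (i : ℤ))) ^ 2 * ‖ξ‖ ^ 2 with hu
    have hle : (2:ℝ) ^ (k0 - (i : ℤ)) ≤ ‖ξ‖ := by
      rw [hk]
      refine le_trans (div_le_self (by positivity) (one_le_pow₀ (by norm_num))) h1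
    have hd : dk (k0 - (i : ℤ)) ξ = - rexp (-u) := by
      unfold dk mK
      rw [if_neg (not_lt.2 hle), hu]
      ring_nf
    have hu1 : (4:ℝ) ^ i ≤ u := by
      rw [hu, hk]
      have h3 : ((2:ℝ) ^ k0) ^ 2 ≤ ‖ξ‖ ^ 2 := pow_le_pow_left₀ (by positivity) h1 2
      have h4 : ((2:ℝ) ^ i) ^ 2 = 4 ^ i := by rw [← pow_mul, mul_comm, pow_mul]; norm_num
      rw [div_pow, h4]
      have hp : (0:ℝ) < ((2:ℝ) ^ k0) ^ 2 := by positivity
      have hpi : (1:ℝ) ≤ π := by linarith [Real.pi_gt_three]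
      calc (4:ℝ) ^ i = 1 / (((2:ℝ) ^ k0) ^ 2 / 4 ^ i) * ((2:ℝ) ^ k0) ^ 2 := by field_simp
        _ ≤ π / (((2:ℝ) ^ k0) ^ 2 / 4 ^ i) * ‖ξ‖ ^ 2 := by gcongr
    have hp4 : (0:ℝ) < 4 ^ i := by positivity
    have hu0 : 0 < u := hp4.trans_le hu1
    have h5 : rexp (-u) ^ 2 ≤ 1 / 4 ^ i := by
      have h6 : rexp (-u) ≤ 1 := Real.exp_le_one_iff.2 (neg_nonpos.2 hu0.le)
      have h7 : rexp (-u) ≤ 1 / u := by
        rw [Real.exp_neg, ← one_div]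
        refine one_div_le_one_div_of_le hu0 ?_
        have := Real.add_one_le_exp u
        linarith
      calc rexp (-u) ^ 2 = rexp (-u) * rexp (-u) := sq _
        _ ≤ 1 * (1 / u) := mul_le_mul h6 h7 (exp_pos _).le zero_le_one
        _ ≤ 1 / 4 ^ i := by
            rw [one_mul]; exact one_div_le_one_div_of_le hp4 hu1
    rw [hd, neg_sq]
    refine (ENNReal.ofReal_le_ofReal h5).trans (le_of_eq ?_)
    rw [one_div, ENNReal.ofReal_inv_of_pos (by positivity), ENNReal.ofReal_pow (by norm_num),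
      ENNReal.inv_pow]
    simp
  have hs : HasSum (fun j : ℤ => ENNReal.ofReal (dk (k0 + 1 + j) ξ ^ 2))
      (∑' i : ℕ, ENNReal.ofReal (dk (k0 + 1 + (i : ℤ)) ξ ^ 2) +
        ∑' i : ℕ, ENNReal.ofReal (dk (k0 + 1 + (-((i : ℤ) + 1))) ξ ^ 2)) :=
    HasSum.of_nat_of_neg_add_one
      (f := fun j : ℤ => ENNReal.ofReal (dk (k0 + 1 + j) ξ ^ 2))
      ENNReal.summable.hasSum ENNReal.summable.hasSum
  have he : ∑' k : ℤ, ENNReal.ofReal (dk k ξ ^ 2) =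
      ∑' j : ℤ, ENNReal.ofReal (dk (k0 + 1 + j) ξ ^ 2) :=
    ((Equiv.addLeft (k0 + 1)).tsum_eq (fun k : ℤ => ENNReal.ofReal (dk k ξ ^ 2))).symm
  rw [he, hs.tsum_eq, Cd]
  refine add_le_add ?_ ?_
  · refine (ENNReal.tsum_le_tsum hA).trans ?_
    rw [ENNReal.tsum_mul_left, ENNReal.tsum_geometric]
  · refine (ENNReal.tsum_le_tsum hB).trans ?_
    rw [ENNReal.tsum_geometric]

/-- the difference pieces -/
noncomputable def dF {n : ℕ} (F : En n → ℂ) (k : ℤ) (ξ : En n) : ℂ := ((dk k ξ : ℝ) : ℂ) * F ξ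

lemma dF_int {n : ℕ} {F : En n → ℂ} (hF : Integrable F) (k : ℤ) : Integrable (dF F k) := by
  refine hF.bdd_mul (c := 1) ?_ ?_
  · exact (Complex.measurable_ofReal.comp (dk_meas k)).aestronglyMeasurable
  · refine Eventually.of_forall fun ξ => ?_
    rw [Complex.norm_real, Real.norm_eq_abs]
    exact dk_abs k ξ

lemma mF_int {n : ℕ} {F : En n → ℂ} (hF : Integrable F) (k : ℤ) :
    Integrable (fun ξ => ((mK k ξ : ℝ) : ℂ) * F ξ) := by
  refine hF.bdd_mul (c := 1) ?_ ?_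
  · exact (Complex.continuous_ofReal.comp (mK_cont k)).aestronglyMeasurable
  · refine Eventually.of_forall fun ξ => ?_
    rw [Complex.norm_real, Real.norm_of_nonneg (mK_nonneg _ _)]
    exact mK_le k ξ

/-- **square function** -/
lemma sq_fun {n : ℕ} {F : En n → ℂ} (hF : Integrable F) :
    ∫⁻ x, ∑' k : ℤ, ‖Fi (dF F k) x‖ₑ ^ 2 ≤ Cd * ∫⁻ ξ, ‖F ξ‖ₑ ^ 2 := by
  rw [lintegral_tsum fun k => ((Fi_cont (dF_int hF k)).measurable.enorm.pow_const 2).aemeasurable]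
  calc ∑' k : ℤ, ∫⁻ x, ‖Fi (dF F k) x‖ₑ ^ 2
      ≤ ∑' k : ℤ, ∫⁻ ξ, ENNReal.ofReal (dk k ξ ^ 2) * ‖F ξ‖ₑ ^ 2 := by
        refine ENNReal.tsum_le_tsum fun k => (bessel (dF_int hF k)).trans (le_of_eq ?_)
        refine lintegral_congr fun ξ => ?_
        rw [dF, enorm_mul, mul_pow]
        congr 1
        rw [← ofReal_norm, Complex.norm_real, ← ENNReal.ofReal_pow (norm_nonneg _),
          Real.norm_eq_abs, sq_abs]
    _ = ∫⁻ ξ, (∑' k : ℤ, ENNReal.ofReal (dk k ξ ^ 2)) * ‖F ξ‖ₑ ^ 2 := by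
        rw [← lintegral_tsum fun k => ?_]
        · simp_rw [ENNReal.tsum_mul_right]
        · exact ((dk_meas k).pow_const 2).ennreal_ofReal.aemeasurable.mul
            (hF.aestronglyMeasurable.enorm.pow_const 2)
    _ ≤ ∫⁻ ξ, Cd * ‖F ξ‖ₑ ^ 2 := by
        refine lintegral_mono fun ξ => ?_
        exact mul_le_mul_left (dk_sum ξ) _
    _ = _ := lintegral_const_mul' _ _ Cd_lt.ne

/-- the constant of the lacunary maximal theorem -/
noncomputable def CL (m : ℕ) : ℝ≥0∞ := 2 * (Cg (m + 1) ^ 2 * (8 * 4 ^ (m + 1))) + 2 * Cd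

lemma CL_lt (m : ℕ) : CL m < ∞ := by
  unfold CL
  refine ENNReal.add_lt_top.2 ⟨ENNReal.mul_lt_top (by norm_num) (ENNReal.mul_lt_top
    (ENNReal.pow_lt_top (Cg_lt _)) (ENNReal.mul_lt_top (by norm_num)
    (ENNReal.pow_lt_top (by norm_num)))), ENNReal.mul_lt_top (by norm_num) Cd_lt⟩

lemma ps_split {m : ℕ} {G : En (m + 1) → ℂ} (hG : MemLp G 2) {k : ℤ} {K : ℕ} (hk : k ≤ K)
    (x : En (m + 1)) :
    ps G ((2:ℝ) ^ k) x = Fi (fun ξ => ((mK k ξ : ℝ) : ℂ) *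
      (shell (m + 1) 0 ((2:ℝ) ^ K)).indicator G ξ) x +
      Fi (dF ((shell (m + 1) 0 ((2:ℝ) ^ K)).indicator G) k) x := by
  have hF : Integrable ((shell (m + 1) 0 ((2:ℝ) ^ K)).indicator G) := ind_int hG _ _
  rw [ps_eq, Fi, Fi, Fi, ← integral_add (ek_int (mF_int hF k) x) (ek_int (dF_int hF k) x)]
  refine integral_congr_ae (Eventually.of_forall fun ξ => ?_)
  simp only [dF]
  rw [← mul_add, ← add_mul, ← Complex.ofReal_add]
  have e : mK k ξ + dk k ξ = if ‖ξ‖ < (2:ℝ) ^ k then 1 else 0 := by unfold dk; ring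
  rw [e]
  have hkK : (2:ℝ) ^ k ≤ (2:ℝ) ^ K := by
    rw [← zpow_natCast]
    exact zpow_le_zpow_right₀ (by norm_num) hk
  by_cases h : ‖ξ‖ < (2:ℝ) ^ k
  · rw [if_pos h, indicator_of_mem (show ξ ∈ shell (m + 1) 0 ((2:ℝ) ^ k) from ⟨norm_nonneg _, h⟩),
      indicator_of_mem (show ξ ∈ shell (m + 1) 0 ((2:ℝ) ^ K) from ⟨norm_nonneg _, h.trans_le hkK⟩)]
    simp
  · rw [if_neg h, indicator_of_notMem (show ξ ∉ shell (m + 1) 0 ((2:ℝ) ^ k) from fun h' => h h'.2)]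
    simp

/-- **the lacunary maximal theorem** -/
theorem lac_max {m : ℕ} {G : En (m + 1) → ℂ} (hG : MemLp G 2) :
    ∫⁻ x, ⨆ k : ℤ, ‖ps G ((2:ℝ) ^ k) x‖ₑ ^ 2 ≤ CL m * ∫⁻ ξ, ‖G ξ‖ₑ ^ 2 := by
  have hmk : ∀ k : ℤ, Measurable fun x => ‖ps G ((2:ℝ) ^ k) x‖ₑ ^ 2 := fun k =>
    (ps_cont_x hG _).measurable.enorm.pow_const 2
  set U : ℕ → En (m + 1) → ℝ≥0∞ := fun K x => ⨆ k : ℤ, ⨆ _ : k ≤ K, ‖ps G ((2:ℝ) ^ k) x‖ₑ ^ 2
    with hU
  have hUm : ∀ K, Measurable (U K) := fun K =>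
    Measurable.iSup fun k => Measurable.iSup fun _ => hmk k
  have hmono : Monotone U := by
    intro K K' hKK x
    refine iSup_le fun k => iSup_le fun hk => ?_
    exact le_iSup₂_of_le (f := fun (k : ℤ) (_ : k ≤ (K' : ℤ)) => ‖ps G ((2:ℝ) ^ k) x‖ₑ ^ 2) k
      (hk.trans (by exact_mod_cast hKK)) le_rfl
  have hsup : ∀ x, ⨆ k : ℤ, ‖ps G ((2:ℝ) ^ k) x‖ₑ ^ 2 = ⨆ K : ℕ, U K x := by
    intro x
    refine le_antisymm (iSup_le fun k => ?_) (iSup_le fun K => iSup_le fun k => iSup_le fun _ => ?_)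
    · refine le_iSup_of_le k.toNat ?_
      exact le_iSup₂_of_le (f := fun (l : ℤ) (_ : l ≤ ((k.toNat : ℕ) : ℤ)) =>
        ‖ps G ((2:ℝ) ^ l) x‖ₑ ^ 2) k (Int.self_le_toNat k) le_rfl
    · exact le_iSup (fun k : ℤ => ‖ps G ((2:ℝ) ^ k) x‖ₑ ^ 2) k
  simp_rw [hsup]
  rw [lintegral_iSup hUm hmono]
  refine iSup_le fun K => ?_
  set F := (shell (m + 1) 0 ((2:ℝ) ^ K)).indicator G with hFd
  have hF : Integrable F := ind_int hG _ _
  set V : En (m + 1) → ℝ≥0∞ := fun x => 2 * (Cg (m + 1) ^ 2 * Mx (fun y => ‖Fi F y‖ₑ) x ^ 2) +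
    2 * ∑' k : ℤ, ‖Fi (dF F k) x‖ₑ ^ 2 with hV
  have hUV : ∀ x, U K x ≤ V x := by
    intro x
    refine iSup_le fun k => iSup_le fun hk => ?_
    rw [ps_split hG hk x]
    refine (enorm_add_sq_le _ _).trans ?_
    rw [mul_add, hV]
    refine add_le_add (mul_le_mul_right ?_ _) (mul_le_mul_right ?_ _)
    · rw [← mul_pow]
      exact pow_le_pow_left' (mean_dom hF k x) 2
    · exact ENNReal.le_tsum (f := fun k : ℤ => ‖Fi (dF F k) x‖ₑ ^ 2) k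
  have hFG : ∫⁻ ξ, ‖F ξ‖ₑ ^ 2 ≤ ∫⁻ ξ, ‖G ξ‖ₑ ^ 2 := by
    refine lintegral_mono fun ξ => ?_
    by_cases h : ξ ∈ shell (m + 1) 0 ((2:ℝ) ^ K)
    · rw [hFd, indicator_of_mem h]
    · rw [hFd, indicator_of_notMem h]; simp
  have hMm : Measurable (Mx (fun y => ‖Fi F y‖ₑ)) := Mx_meas (Fi_cont hF).measurable.enorm
  calc ∫⁻ x, U K x ≤ ∫⁻ x, V x := lintegral_mono hUV
    _ = 2 * (Cg (m + 1) ^ 2 * ∫⁻ x, Mx (fun y => ‖Fi F y‖ₑ) x ^ 2) +
        2 * ∫⁻ x, ∑' k : ℤ, ‖Fi (dF F k) x‖ₑ ^ 2 := by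
        rw [hV]
        rw [lintegral_add_left (((hMm.pow_const 2).const_mul _).const_mul _),
          lintegral_const_mul _ ((hMm.pow_const 2).const_mul _),
          lintegral_const_mul _ (hMm.pow_const 2),
          lintegral_const_mul _ (Measurable.tsum fun k =>
            (Fi_cont (dF_int hF k)).measurable.enorm.pow_const 2)]
    _ ≤ 2 * (Cg (m + 1) ^ 2 * (8 * 4 ^ (m + 1) * ∫⁻ ξ, ‖G ξ‖ₑ ^ 2)) +
        2 * (Cd * ∫⁻ ξ, ‖G ξ‖ₑ ^ 2) := by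
        refine add_le_add (mul_le_mul_right (mul_le_mul_right ?_ _) _) (mul_le_mul_right ?_ _)
        · refine (Mx_strong (Fi_cont hF).measurable.enorm).trans (mul_le_mul_right ?_ _)
          exact (bessel hF).trans hFG
        · exact (sq_fun hF).trans (mul_le_mul_right hFG _)
    _ = _ := by rw [CL]; ring

end Pool.Agent.P8H75.SR
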