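import Mathlib
import Pool.Agent.P8H75.SR.B
import Pool.Agent.P8H75.SR.L2

/-! # The maximal inequality over measures of given gauge -/

set_option autoImplicit false

open MeasureTheory Metric Real Set Filter Topology
open scoped ENNReal NNReal

namespace Pool.Agent.P8H75.SR

open Pool.Agent.Helper93.Sph

/-- position of `R` on the scale `T` -/
noncomputable def pos (T R : ℝ) : ℝ := R / T - 1

lemma pos_meas (T : ℝ) : Measurable (pos T) := by unfold pos; fun_prop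

lemma pos_pre {T : ℝ} (hT : 0 < T) (a b : ℝ) :
    pos T ⁻¹' (Ico a b) = Ico (T * (1 + a)) (T * (1 + b)) := by
  ext R
  simp only [pos, mem_preimage, mem_Ico]
  rw [le_sub_iff_add_le, sub_lt_iff_lt_add, le_div_iff₀ hT, div_lt_iff₀ hT]
  constructor <;> rintro ⟨h1, h2⟩ <;> constructor <;> nlinarith

lemma pa_pos {n : ℕ} (G : En n → ℂ) {T : ℝ} (hT : 0 < T) (x : En n) (R : ℝ) :
    pa G T x (pos T R) = ps G R x := by
  unfold pa pos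
  congr 1
  field_simp
  ring

lemma pa_zero {n : ℕ} (G : En n → ℂ) (T : ℝ) (x : En n) : pa G T x 0 = ps G T x := by
  unfold pa
  rw [add_zero, mul_one]

/-- one dyadic block -/
lemma block {m : ℕ} {G : En (m + 1) → ℂ} (hG : MemLp G 2) {T : ℝ} (hT : 0 < T)
    (x : En (m + 1)) {w : ℕ → ℝ≥0} (hw : ∀ j, w j ≠ 0) (ν : Measure ℝ)
    (hν : ∀ (j : ℕ) (a : ℝ), T ≤ a → ν (Icc a (a + T / 2 ^ (j + 1))) ≤ (w j : ℝ≥0∞) ^ 2) :
    ∫⁻ R in Ico T (2 * T), ‖ps G R x - ps G T x‖ₑ ^ 2 ∂ν ≤ Vw w (pa G T x) := by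
  have h1 := chain_measure (pa_cont hG T x) hw ν (pos_meas T) (fun j c _ => ?_)
  · have e : pos T ⁻¹' (Ico 0 1) = Ico T (2 * T) := by
      rw [pos_pre hT]; congr 1 <;> ring
    rw [e] at h1
    simp_rw [pa_pos G hT x, pa_zero] at h1
    exact h1
  · rw [dI, pos_pre hT]
    have hTa : T ≤ T * (1 + ((c + 1 : ℕ) : ℝ) / 2 ^ (j + 1)) :=
      le_mul_of_one_le_right hT.le (le_add_of_nonneg_right (by positivity))
    refine (measure_mono ?_).trans (hν j (T * (1 + ((c + 1 : ℕ) : ℝ) / 2 ^ (j + 1))) hTa)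
    refine Ico_subset_Icc_self.trans (Icc_subset_Icc le_rfl (le_of_eq ?_))
    push_cast
    field_simp
    ring

lemma block_full {m : ℕ} {G : En (m + 1) → ℂ} (hG : MemLp G 2) {T : ℝ} (hT : 0 < T)
    (x : En (m + 1)) {w : ℕ → ℝ≥0} (hw : ∀ j, w j ≠ 0) (ν : Measure ℝ)
    (hν : ∀ (j : ℕ) (a : ℝ), T ≤ a → ν (Icc a (a + T / 2 ^ (j + 1))) ≤ (w j : ℝ≥0∞) ^ 2) :
    ∫⁻ R in Ico T (2 * T), ‖ps G R x‖ₑ ^ 2 ∂ν ≤
      2 * Vw w (pa G T x) + 2 * (ν (Ico T (2 * T)) * ‖ps G T x‖ₑ ^ 2) := by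
  have hm : Measurable fun R => ‖ps G R x - ps G T x‖ₑ ^ 2 :=
    ((ps_cont_R hG x).sub continuous_const).measurable.enorm.pow_const 2
  calc ∫⁻ R in Ico T (2 * T), ‖ps G R x‖ₑ ^ 2 ∂ν
      ≤ ∫⁻ R in Ico T (2 * T), (2 * ‖ps G R x - ps G T x‖ₑ ^ 2 + 2 * ‖ps G T x‖ₑ ^ 2) ∂ν := by
        refine lintegral_mono fun R => ?_
        have := enorm_add_sq_le (ps G R x - ps G T x) (ps G T x)
        rw [sub_add_cancel, mul_add] at this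
        exact this
    _ = 2 * ∫⁻ R in Ico T (2 * T), ‖ps G R x - ps G T x‖ₑ ^ 2 ∂ν +
        2 * ‖ps G T x‖ₑ ^ 2 * ν (Ico T (2 * T)) := by
        rw [lintegral_add_right _ measurable_const, lintegral_const_mul _ hm, setLIntegral_const]
    _ ≤ 2 * Vw w (pa G T x) + 2 * ‖ps G T x‖ₑ ^ 2 * ν (Ico T (2 * T)) :=
        add_le_add (mul_le_mul_right (block hG hT x hw ν hν) _) le_rfl
    _ = _ := by ring

/-- the weights attached to a gauge -/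
noncomputable def wt (h : ℕ → ℝ≥0) (j : ℕ) : ℝ≥0 := NNReal.sqrt (h (j + 1)) + (1 / 2) ^ (j + 1)

lemma wt_ne (h : ℕ → ℝ≥0) (j : ℕ) : wt h j ≠ 0 := by
  unfold wt; positivity

lemma wt_sq (h : ℕ → ℝ≥0) (j : ℕ) : (h (j + 1) : ℝ≥0∞) ≤ (wt h j : ℝ≥0∞) ^ 2 := by
  have : h (j + 1) ≤ wt h j ^ 2 := by
    calc h (j + 1) = NNReal.sqrt (h (j + 1)) ^ 2 := (NNReal.sq_sqrt _).symm
      _ ≤ _ := pow_le_pow_left' (by unfold wt; exact le_self_add) 2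
  exact_mod_cast this

lemma wt_sum (h : ℕ → ℝ≥0) :
    ∑' j, (wt h j : ℝ≥0∞) ≤ 1 + ∑' j, (NNReal.sqrt (h j) : ℝ≥0∞) := by
  unfold wt
  push_cast
  rw [ENNReal.tsum_add]
  have h1 : ∑' j, (NNReal.sqrt (h (j + 1)) : ℝ≥0∞) ≤ ∑' j, (NNReal.sqrt (h j) : ℝ≥0∞) :=
    ENNReal.tsum_comp_le_tsum_of_injective (f := fun j : ℕ => j + 1) (fun a b hab => by simpa using hab)
      (fun j => (NNReal.sqrt (h j) : ℝ≥0∞))
  have h2 : ∑' j : ℕ, (1 / 2 : ℝ≥0∞) ^ (j + 1) = 1 := by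
    rw [one_div, ENNReal.tsum_geometric_add_one, ENNReal.one_sub_inv_two, inv_inv]
    exact ENNReal.inv_mul_cancel (by norm_num) (by norm_num)
  rw [h2, add_comm]
  exact add_le_add le_rfl h1

/-- the majorant -/
noncomputable def Vm {n : ℕ} (h : ℕ → ℝ≥0) (G : En n → ℂ) (x : En n) : ℝ≥0∞ :=
  2 * ∑' k : ℤ, Vw (wt h) (pa G ((2:ℝ) ^ k) x) + 2 * (h 0 * ⨆ k : ℤ, ‖ps G ((2:ℝ) ^ k) x‖ₑ ^ 2)

lemma Vm_meas {m : ℕ} (h : ℕ → ℝ≥0) {G : En (m + 1) → ℂ} (hG : MemLp G 2) :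
    Measurable (Vm h G) := by
  unfold Vm
  refine ((Measurable.tsum fun k => Vw_meas hG _ _).const_mul _).add
    (((Measurable.iSup fun k => ?_).const_mul _).const_mul _)
  exact (ps_cont_x hG _).measurable.enorm.pow_const 2

lemma Vm_int {m : ℕ} (h : ℕ → ℝ≥0) {G : En (m + 1) → ℂ} (hG : MemLp G 2) :
    ∫⁻ x, Vm h G x ≤ (2 + 2 * CL m) * (1 + ∑' j, (NNReal.sqrt (h j) : ℝ≥0∞)) ^ 2 *
      ∫⁻ ξ, ‖G ξ‖ₑ ^ 2 := by
  set B := ∑' j, (NNReal.sqrt (h j) : ℝ≥0∞) with hB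
  have hm1 : Measurable fun x => ∑' k : ℤ, Vw (wt h) (pa G ((2:ℝ) ^ k) x) :=
    Measurable.tsum fun k => Vw_meas hG _ _
  have hm2 : Measurable fun x => ⨆ k : ℤ, ‖ps G ((2:ℝ) ^ k) x‖ₑ ^ 2 :=
    Measurable.iSup fun k => (ps_cont_x hG _).measurable.enorm.pow_const 2
  have h0 : (h 0 : ℝ≥0∞) ≤ (1 + B) ^ 2 := by
    have h1 : (NNReal.sqrt (h 0) : ℝ≥0∞) ≤ B := ENNReal.le_tsum 0
    calc (h 0 : ℝ≥0∞) = (NNReal.sqrt (h 0) : ℝ≥0∞) ^ 2 := by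
          exact_mod_cast (NNReal.sq_sqrt (h 0)).symm
      _ ≤ (1 + B) ^ 2 := pow_le_pow_left' (h1.trans le_add_self) 2
  unfold Vm
  rw [lintegral_add_left (hm1.const_mul _), lintegral_const_mul _ hm1,
    lintegral_const_mul _ (hm2.const_mul _), lintegral_const_mul _ hm2]
  calc 2 * (∫⁻ x, ∑' k : ℤ, Vw (wt h) (pa G ((2:ℝ) ^ k) x)) +
        2 * (h 0 * ∫⁻ x, ⨆ k : ℤ, ‖ps G ((2:ℝ) ^ k) x‖ₑ ^ 2)
      ≤ 2 * ((1 + B) ^ 2 * ∫⁻ ξ, ‖G ξ‖ₑ ^ 2) +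
        2 * ((1 + B) ^ 2 * (CL m * ∫⁻ ξ, ‖G ξ‖ₑ ^ 2)) := by
        refine add_le_add (mul_le_mul_right ?_ _) (mul_le_mul_right (mul_le_mul' h0 (lac_max hG)) _)
        exact Vw_sum hG (fun _ => wt h) (1 + B) fun _ => wt_sum h
    _ = _ := by ring

/-- the dyadic annuli of radii -/
def dyA (k : ℤ) : Set ℝ := Ico ((2:ℝ) ^ k) (2 * (2:ℝ) ^ k)

lemma dyA_disj : Pairwise (Function.onFun Disjoint dyA) := by
  intro a b hab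
  rw [Function.onFun, Set.disjoint_left]
  rintro ξ ⟨h1, h2⟩ ⟨h3, h4⟩
  have e : ∀ k : ℤ, 2 * (2 : ℝ) ^ k = (2 : ℝ) ^ (k + 1) := fun k => by
    rw [zpow_add₀ (by norm_num), zpow_one]; ring
  rw [e] at h2 h4
  have h5 : (2 : ℝ) ^ a < (2 : ℝ) ^ (b + 1) := h1.trans_lt h4
  have h6 : (2 : ℝ) ^ b < (2 : ℝ) ^ (a + 1) := h3.trans_lt h2
  rw [zpow_lt_zpow_iff_right₀ (by norm_num)] at h5 h6
  exact hab (by omega)

lemma dyA_cover {R : ℝ} (hR : 0 < R) : R ∈ ⋃ k, dyA k := by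
  obtain ⟨k, hk1, hk2⟩ := exists_mem_Ico_zpow hR (by norm_num : (1:ℝ) < 2)
  refine mem_iUnion.2 ⟨k, hk1, ?_⟩
  rwa [zpow_add₀ (by norm_num), zpow_one, mul_comm] at hk2

/-- **the maximal inequality** -/
theorem max_ineq {m : ℕ} (h : ℕ → ℝ≥0) {G : En (m + 1) → ℂ} (hG : MemLp G 2) (x : En (m + 1))
    (ν : Measure ℝ) (h0 : ν (Iic 0) = 0) (hm : ν univ ≤ h 0)
    (hν : ∀ (j : ℕ) (a : ℝ), 0 < a → ν (Icc a ((1 + 1 / 2 ^ j) * a)) ≤ h j) :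
    ∫⁻ R, ‖ps G R x‖ₑ ^ 2 ∂ν ≤ Vm h G x := by
  have hcov : ∀ᵐ R ∂ν, R ∈ ⋃ k, dyA k := by
    have h1 : ∀ᵐ R ∂ν, R ∈ Ioi (0:ℝ) := by
      rw [ae_iff]
      have : {a : ℝ | a ∉ Ioi (0:ℝ)} = Iic 0 := by ext a; simp
      rw [this]; exact h0
    filter_upwards [h1] with R hR using dyA_cover hR
  have h1 : ∀ (k : ℤ) (j : ℕ) (a : ℝ), (2:ℝ) ^ k ≤ a →
      ν (Icc a (a + (2:ℝ) ^ k / 2 ^ (j + 1))) ≤ (wt h j : ℝ≥0∞) ^ 2 := by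
    intro k j a ha
    have hp : (0:ℝ) < (2:ℝ) ^ k := by positivity
    refine (measure_mono (Icc_subset_Icc le_rfl ?_)).trans
      ((hν (j + 1) a (hp.trans_le ha)).trans (wt_sq h j))
    have : (2:ℝ) ^ k / 2 ^ (j + 1) ≤ a / 2 ^ (j + 1) := by gcongr
    calc a + (2:ℝ) ^ k / 2 ^ (j + 1) ≤ a + a / 2 ^ (j + 1) := by linarith
      _ = _ := by ring
  calc ∫⁻ R, ‖ps G R x‖ₑ ^ 2 ∂ν
      = ∫⁻ R in ⋃ k, dyA k, ‖ps G R x‖ₑ ^ 2 ∂ν := by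
        rw [Measure.restrict_eq_self_of_ae_mem hcov]
    _ ≤ ∑' k : ℤ, ∫⁻ R in dyA k, ‖ps G R x‖ₑ ^ 2 ∂ν := lintegral_iUnion_le _ _
    _ ≤ ∑' k : ℤ, (2 * Vw (wt h) (pa G ((2:ℝ) ^ k) x) +
        2 * (ν (dyA k) * ‖ps G ((2:ℝ) ^ k) x‖ₑ ^ 2)) :=
        ENNReal.tsum_le_tsum fun k => block_full hG (by positivity) x (wt_ne h) ν (h1 k)
    _ ≤ ∑' k : ℤ, (2 * Vw (wt h) (pa G ((2:ℝ) ^ k) x) +
        2 * (ν (dyA k) * ⨆ k : ℤ, ‖ps G ((2:ℝ) ^ k) x‖ₑ ^ 2)) := by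
        refine ENNReal.tsum_le_tsum fun k => add_le_add le_rfl
          (mul_le_mul_right (mul_le_mul_right ?_ _) _)
        exact le_iSup (fun k : ℤ => ‖ps G ((2:ℝ) ^ k) x‖ₑ ^ 2) k
    _ = 2 * ∑' k : ℤ, Vw (wt h) (pa G ((2:ℝ) ^ k) x) +
        2 * (ν (⋃ k, dyA k) * ⨆ k : ℤ, ‖ps G ((2:ℝ) ^ k) x‖ₑ ^ 2) := by
        rw [ENNReal.tsum_add, ENNReal.tsum_mul_left, ENNReal.tsum_mul_left, ENNReal.tsum_mul_right,
          measure_iUnion dyA_disj fun k => measurableSet_Ico]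
    _ ≤ _ := by
        unfold Vm
        refine add_le_add le_rfl (mul_le_mul_right (mul_le_mul_left ?_ _) _)
        exact (measure_mono (subset_univ _)).trans hm

end Pool.Agent.P8H75.SR
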