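import Mathlib
import Pool.Agent.P8H75.SR.M

/-! # Almost everywhere convergence along dilated dyadic radii -/

set_option autoImplicit false

open MeasureTheory Metric Real Set Filter Topology
open scoped ENNReal NNReal

namespace Pool.Agent.P8H75.SR

open Pool.Agent.Helper93.Sph

/-- lacunary convergence -/
theorem lac_conv {m : ℕ} {G : En (m + 1) → ℂ} (hG : MemLp G 2) :
    ∀ᵐ x, ∃ L : ℂ, Tendsto (fun k : ℕ => ps G ((2:ℝ) ^ k) x) atTop (𝓝 L) := by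
  set F : ℕ → En (m + 1) → ℝ≥0∞ := fun K x =>
    ⨆ k : ℤ, ‖ps (tail ((2:ℝ) ^ K) G) ((2:ℝ) ^ k) x‖ₑ ^ 2 with hF
  have hFm : ∀ K, Measurable (F K) := fun K => Measurable.iSup fun k =>
    (ps_cont_x (tail_memLp _ hG) _).measurable.enorm.pow_const 2
  have hbound : ∀ K, ∫⁻ x, F K x ≤ CL m * ∫⁻ ξ, ‖tail ((2:ℝ) ^ K) G ξ‖ₑ ^ 2 := fun K =>
    lac_max (tail_memLp _ hG)
  have hz : ∫⁻ x, ⨅ K, F K x = 0 := by
    have h1 : ∀ K : ℕ, ∫⁻ x, ⨅ K, F K x ≤ CL m * ∫⁻ ξ, ‖tail ((2:ℝ) ^ K) G ξ‖ₑ ^ 2 := fun K =>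
      (lintegral_mono fun x => iInf_le _ K).trans (hbound K)
    have h2 := ENNReal.Tendsto.const_mul (a := CL m)
      (tail_tendsto hG (tendsto_pow_atTop_atTop_of_one_lt (by norm_num : (1:ℝ) < 2)))
      (Or.inr (CL_lt m).ne)
    rw [mul_zero] at h2
    exact le_antisymm (ge_of_tendsto' h2 h1) zero_le
  rw [lintegral_eq_zero_iff (Measurable.iInf hFm)] at hz
  filter_upwards [hz] with x hx
  simp only [Pi.zero_apply, hF] at hx
  refine cauchySeq_tendsto_of_complete (Metric.cauchySeq_iff'.2 fun δ hδ => ?_)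
  have h4 : (⨅ K : ℕ, ⨆ k : ℤ, ‖ps (tail ((2:ℝ) ^ K) G) ((2:ℝ) ^ k) x‖ₑ ^ 2) <
      ENNReal.ofReal ((δ / 2) ^ 2) := by
    rw [hx]; simpa using pow_pos (half_pos hδ) 2
  obtain ⟨K, hK⟩ := iInf_lt_iff.1 h4
  refine ⟨K, fun k hk => ?_⟩
  have h5 : ‖ps (tail ((2:ℝ) ^ K) G) ((2:ℝ) ^ k) x‖ₑ ^ 2 ≤ ENNReal.ofReal ((δ / 2) ^ 2) := by
    refine le_trans ?_ hK.le
    have := le_iSup (fun k : ℤ => ‖ps (tail ((2:ℝ) ^ K) G) ((2:ℝ) ^ k) x‖ₑ ^ 2) (k : ℤ)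
    simp only [zpow_natCast] at this
    exact this
  rw [tail_ps hG (by positivity) (pow_le_pow_right₀ (by norm_num) hk)] at h5
  rw [← ofReal_norm, ← ENNReal.ofReal_pow (norm_nonneg _),
    ENNReal.ofReal_le_ofReal_iff (by positivity)] at h5
  rw [dist_eq_norm]
  have := le_of_sq_le_sq h5 (by positivity)
  linarith

/-- finiteness of the majorants -/
lemma Vw_fin {m : ℕ} {G : En (m + 1) → ℂ} (hG : MemLp G 2) {w : ℕ → ℝ≥0}
    (hw : ∑' j, (w j : ℝ≥0∞) ≠ ∞) :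
    ∀ᵐ x, ∑' k : ℤ, Vw w (pa G ((2:ℝ) ^ k) x) < ∞ := by
  refine ae_lt_top (Measurable.tsum fun k => Vw_meas hG _ _) ?_
  refine ((Vw_sum hG (fun _ => w) _ fun _ => le_rfl).trans_lt ?_).ne
  exact ENNReal.mul_lt_top (ENNReal.pow_lt_top hw.lt_top) (sq_fin hG).lt_top

lemma int_of_nat_le {f : ℤ → ℝ≥0∞} (i : ℤ) : ∑' k : ℕ, f ((k : ℤ) + i) ≤ ∑' k : ℤ, f k :=
  ENNReal.tsum_comp_le_tsum_of_injective (f := fun k : ℕ => (k : ℤ) + i)
    (fun a b hab => by simpa using hab) f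

/-- **convergence along the dilated dyadic radii, for almost every dilation** -/
theorem dil_conv {m : ℕ} {G : En (m + 1) → ℂ} (hG : MemLp G 2) {h : ℕ → ℝ≥0} {x : En (m + 1)}
    {L : ℂ} (hL : Tendsto (fun k : ℕ => ps G ((2:ℝ) ^ k) x) atTop (𝓝 L))
    (hx : ∑' k : ℤ, Vw (wt h) (pa G ((2:ℝ) ^ k) x) < ∞) (ν : Measure ℝ) (h0 : ν (Iic 0) = 0)
    (hν : ∀ (j : ℕ) (a : ℝ), 0 < a → ν (Icc a ((1 + 1 / 2 ^ j) * a)) ≤ h j) :
    ∀ᵐ θ ∂ν, Tendsto (fun k : ℕ => ps G ((2:ℝ) ^ k * θ) x) atTop (𝓝 L) := by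
  have h1 : ∀ᵐ R ∂ν, R ∈ Ioi (0:ℝ) := by
    rw [ae_iff]
    have : {a : ℝ | a ∉ Ioi (0:ℝ)} = Iic 0 := by ext a; simp
    rw [this]; exact h0
  have key : ∀ i : ℤ, ∀ᵐ θ ∂ν, θ ∈ dyA i →
      Tendsto (fun k : ℕ => ps G ((2:ℝ) ^ k * θ) x) atTop (𝓝 L) := by
    intro i
    have hp : (0:ℝ) < (2:ℝ) ^ i := by positivity
    have hpa : ∀ (k : ℕ) (θ : ℝ), pa G ((2:ℝ) ^ ((k : ℤ) + i)) x (pos ((2:ℝ) ^ i) θ) =
        ps G ((2:ℝ) ^ k * θ) x := by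
      intro k θ
      unfold pa pos
      congr 1
      rw [zpow_add₀ (by norm_num), zpow_natCast]
      field_simp
      ring
    have hpa0 : ∀ k : ℕ, pa G ((2:ℝ) ^ ((k : ℤ) + i)) x 0 = ps G ((2:ℝ) ^ ((k : ℤ) + i)) x := by
      intro k; exact pa_zero _ _ _
    have hpre : pos ((2:ℝ) ^ i) ⁻¹' (Ico 0 1) = dyA i := by
      rw [pos_pre hp, dyA]; congr 1 <;> ring
    have hk : ∀ k : ℕ, ∫⁻ θ in dyA i, ‖ps G ((2:ℝ) ^ k * θ) x - ps G ((2:ℝ) ^ ((k : ℤ) + i)) x‖ₑ ^ 2 ∂ν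
        ≤ Vw (wt h) (pa G ((2:ℝ) ^ ((k : ℤ) + i)) x) := by
      intro k
      have h2 := chain_measure (pa_cont hG ((2:ℝ) ^ ((k : ℤ) + i)) x) (wt_ne h) ν
        (pos_meas ((2:ℝ) ^ i)) (fun j c _ => ?_)
      · simp_rw [hpa, hpa0, hpre] at h2
        exact h2
      · rw [dI, pos_pre hp]
        set a : ℝ := (2:ℝ) ^ i * (1 + ((c + 1 : ℕ) : ℝ) / 2 ^ (j + 1)) with ha
        have ha1 : (2:ℝ) ^ i ≤ a :=
          le_mul_of_one_le_right hp.le (le_add_of_nonneg_right (by positivity))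
        refine (measure_mono ?_).trans ((hν (j + 1) a (hp.trans_le ha1)).trans (wt_sq h j))
        refine Ico_subset_Icc_self.trans (Icc_subset_Icc le_rfl ?_)
        have e : (2:ℝ) ^ i * (1 + ((c + 1 + 1 : ℕ) : ℝ) / 2 ^ (j + 1)) =
            a + (2:ℝ) ^ i / 2 ^ (j + 1) := by
          rw [ha]; push_cast; field_simp; ring
        rw [e]
        have : (2:ℝ) ^ i / 2 ^ (j + 1) ≤ a / 2 ^ (j + 1) := by gcongr
        calc a + (2:ℝ) ^ i / 2 ^ (j + 1) ≤ a + a / 2 ^ (j + 1) := by linarith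
          _ = _ := by ring
    have hms : ∀ k : ℕ, Measurable fun θ =>
        ‖ps G ((2:ℝ) ^ k * θ) x - ps G ((2:ℝ) ^ ((k : ℤ) + i)) x‖ₑ ^ 2 := fun k =>
      ((((ps_cont_R hG x).comp (by fun_prop : Continuous fun θ : ℝ => (2:ℝ) ^ k * θ)).sub
        continuous_const)).measurable.enorm.pow_const 2
    have hsum : ∫⁻ θ in dyA i, ∑' k : ℕ,
        ‖ps G ((2:ℝ) ^ k * θ) x - ps G ((2:ℝ) ^ ((k : ℤ) + i)) x‖ₑ ^ 2 ∂ν ≠ ∞ := by
      rw [lintegral_tsum fun k => (hms k).aemeasurable]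
      refine ((ENNReal.tsum_le_tsum hk).trans_lt ?_).ne
      exact (int_of_nat_le (f := fun k => Vw (wt h) (pa G ((2:ℝ) ^ k) x)) i).trans_lt hx
    have h3 := ae_lt_top (Measurable.tsum hms) hsum
    rw [ae_restrict_iff' (show MeasurableSet (dyA i) from measurableSet_Ico)] at h3
    filter_upwards [h3] with θ hθ hmem
    have h4 := ENNReal.tendsto_atTop_zero_of_tsum_ne_top (hθ hmem).ne
    have h5 : Tendsto (fun k : ℕ => ps G ((2:ℝ) ^ k * θ) x - ps G ((2:ℝ) ^ ((k : ℤ) + i)) x) atTop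
        (𝓝 0) := by
      rw [tendsto_zero_iff_norm_tendsto_zero]
      have h6 : Tendsto (fun k : ℕ =>
          ‖ps G ((2:ℝ) ^ k * θ) x - ps G ((2:ℝ) ^ ((k : ℤ) + i)) x‖ ^ 2) atTop (𝓝 0) := by
        have := (ENNReal.tendsto_toReal ENNReal.zero_ne_top).comp h4
        refine (this.congr fun k => ?_)
        simp
      have h7 := h6.sqrt
      simpa using h7
    have h8 : Tendsto (fun k : ℕ => ps G ((2:ℝ) ^ ((k : ℤ) + i)) x) atTop (𝓝 L) := by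
      have h9 : Tendsto (fun k : ℕ => ((k : ℤ) + i).toNat) atTop atTop := by
        refine tendsto_atTop.2 fun b => ?_
        filter_upwards [eventually_ge_atTop (b + i.natAbs)] with k hk
        omega
      refine (hL.comp h9).congr' ?_
      filter_upwards [eventually_ge_atTop i.natAbs] with k hk
      simp only [Function.comp]
      rw [← zpow_natCast, Int.toNat_of_nonneg (by omega)]
    have h10 := h5.add h8
    simpa using h10
  filter_upwards [h1, ae_all_iff.2 key] with θ hθ hk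
  obtain ⟨i, hi⟩ := mem_iUnion.1 (dyA_cover hθ)
  exact hk i hi

end Pool.Agent.P8H75.SR
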