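import Mathlib
import Pool.Agent.P8H75.SR.A

/-! # Dyadic covers and dyadic measures: duality on a finite tree -/

set_option autoImplicit false

open MeasureTheory Metric Real Set Filter Topology
open scoped ENNReal NNReal

namespace Pool.Agent.P8H75.SR

open Pool.Agent.Helper93.Sph

lemma mem_dI {j c : ℕ} {t : ℝ} : t ∈ dI j c ↔ (c : ℝ) ≤ t * 2 ^ j ∧ t * 2 ^ j < c + 1 := by
  have hp : (0 : ℝ) < 2 ^ j := by positivity
  rw [dI, mem_Ico, div_le_iff₀ hp, lt_div_iff₀ hp]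
  push_cast
  rfl

/-- dyadic intervals are nested -/
lemma nest {j₁ j₂ c₁ c₂ : ℕ} (h : j₁ ≤ j₂) {t : ℝ} (h1 : t ∈ dI j₁ c₁) (h2 : t ∈ dI j₂ c₂) :
    dI j₂ c₂ ⊆ dI j₁ c₁ := by
  obtain ⟨d, rfl⟩ := Nat.exists_eq_add_of_le h
  rw [mem_dI] at h1 h2
  have hd : (0 : ℝ) < 2 ^ d := by positivity
  have e : t * 2 ^ (j₁ + d) = t * 2 ^ j₁ * 2 ^ d := by rw [pow_add]; ring
  rw [e] at h2
  have a1 : c₁ * 2 ^ d < c₂ + 1 := by
    have : ((c₁ * 2 ^ d : ℕ) : ℝ) < ((c₂ + 1 : ℕ) : ℝ) := by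
      push_cast
      exact lt_of_le_of_lt (mul_le_mul_of_nonneg_right h1.1 hd.le) h2.2
    exact_mod_cast this
  have a2 : c₂ < (c₁ + 1) * 2 ^ d := by
    have : ((c₂ : ℕ) : ℝ) < (((c₁ + 1) * 2 ^ d : ℕ) : ℝ) := by
      push_cast
      exact lt_of_le_of_lt h2.1 (mul_lt_mul_of_pos_right h1.2 hd)
    exact_mod_cast this
  have a1' : ((c₁ * 2 ^ d : ℕ) : ℝ) ≤ (c₂ : ℝ) := by exact_mod_cast Nat.lt_succ_iff.1 a1
  have a2' : ((c₂ + 1 : ℕ) : ℝ) ≤ (((c₁ + 1) * 2 ^ d : ℕ) : ℝ) := by exact_mod_cast a2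
  push_cast at a1' a2'
  intro s hs
  rw [mem_dI] at hs ⊢
  have e' : s * 2 ^ (j₁ + d) = s * 2 ^ j₁ * 2 ^ d := by rw [pow_add]; ring
  rw [e'] at hs
  constructor
  · have : (c₁ : ℝ) * 2 ^ d ≤ s * 2 ^ j₁ * 2 ^ d := a1'.trans hs.1
    exact le_of_mul_le_mul_right this hd
  · have : s * 2 ^ j₁ * 2 ^ d < ((c₁ : ℝ) + 1) * 2 ^ d := lt_of_lt_of_le hs.2 a2'
    exact lt_of_mul_lt_mul_right this hd.le

lemma dI_split (j c : ℕ) : dI j c = dI (j + 1) (2 * c) ∪ dI (j + 1) (2 * c + 1) := by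
  ext t
  rw [mem_union, mem_dI, mem_dI, mem_dI]
  have e : t * 2 ^ (j + 1) = 2 * (t * 2 ^ j) := by rw [pow_succ]; ring
  rw [e]
  push_cast
  constructor
  · rintro ⟨h1, h2⟩
    rcases lt_or_ge (2 * (t * 2 ^ j)) (2 * (c : ℝ) + 1) with h | h
    · exact Or.inl ⟨by linarith, h⟩
    · exact Or.inr ⟨h, by linarith⟩
  · rintro (⟨h1, h2⟩ | ⟨h1, h2⟩)
    · exact ⟨by linarith, by linarith⟩
    · exact ⟨by linarith, by linarith⟩

lemma dI_disj (j c : ℕ) : Disjoint (dI (j + 1) (2 * c)) (dI (j + 1) (2 * c + 1)) := by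
  rw [Set.disjoint_left]
  intro t h1 h2
  rw [mem_dI] at h1 h2
  push_cast at h1 h2
  linarith [h1.2, h2.1]

/-- **duality**: a set can be covered by dyadic intervals of total gauge at most the mass of a
measure on it with the given gauge -/
theorem dual (g : ℕ → ℝ≥0) (P : ℝ → Prop) (d : ℕ) : ∀ j c : ℕ,
    ∃ (A : Finset (ℕ × ℕ)) (ν : Measure ℝ),
      (∀ p ∈ A, p.1 ≤ j + d ∧ dI p.1 p.2 ⊆ dI j c) ∧
      (∀ t ∈ dI j c, P t → ∃ p ∈ A, t ∈ dI p.1 p.2) ∧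
      (∀ᵐ t ∂ν, t ∈ dI j c ∧ P t) ∧
      (∀ j', j ≤ j' → j' ≤ j + d → ∀ c', ν (dI j' c') ≤ g j') ∧
      ∑ p ∈ A, (g p.1 : ℝ≥0∞) ≤ ν univ ∧ ν univ ≤ g j := by
  classical
  induction d with
  | zero =>
    intro j c
    by_cases h : ∃ t ∈ dI j c, P t
    · obtain ⟨t0, ht0, hP⟩ := h
      refine ⟨{(j, c)}, (g j : ℝ≥0∞) • Measure.dirac t0, ?_, ?_, ?_, ?_, ?_, ?_⟩
      · intro p hp
        rw [Finset.mem_singleton] at hp
        subst hp
        exact ⟨by simp, le_rfl⟩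
      · intro t ht _
        exact ⟨(j, c), Finset.mem_singleton_self _, ht⟩
      · have h1 : ∀ᵐ t ∂(Measure.dirac t0), t ∈ dI j c ∧ P t := by
          rw [ae_dirac_eq]; exact ⟨ht0, hP⟩
        exact Measure.ae_smul_measure h1 _
      · intro j' h1 h2 c'
        have : j' = j := by omega
        subst this
        rw [Measure.smul_apply, smul_eq_mul]
        exact mul_le_of_le_one_right' prob_le_one
      · simp
      · simp
    · push Not at h
      refine ⟨∅, 0, by simp, fun t ht hP => absurd hP (h t ht), by simp, by simp, by simp, by simp⟩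
  | succ d ih =>
    intro j c
    obtain ⟨A1, ν1, a1, a2, a3, a4, a5, a6⟩ := ih (j + 1) (2 * c)
    obtain ⟨A2, ν2, b1, b2, b3, b4, b5, b6⟩ := ih (j + 1) (2 * c + 1)
    have hsp := dI_split j c
    have hsub1 : dI (j + 1) (2 * c) ⊆ dI j c := by rw [hsp]; exact subset_union_left
    have hsub2 : dI (j + 1) (2 * c + 1) ⊆ dI j c := by rw [hsp]; exact subset_union_right
    set ν := ν1 + ν2 with hν
    have hae : ∀ᵐ t ∂ν, t ∈ dI j c ∧ P t := by
      rw [hν, ae_add_measure_iff]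
      exact ⟨a3.mono fun t ht => ⟨hsub1 ht.1, ht.2⟩, b3.mono fun t ht => ⟨hsub2 ht.1, ht.2⟩⟩
    -- masses of deeper intervals
    have hdeep : ∀ j', j + 1 ≤ j' → j' ≤ j + (d + 1) → ∀ c', ν (dI j' c') ≤ g j' := by
      intro j' h1 h2 c'
      rw [hν, Measure.add_apply]
      have hz1 : ∀ s : Set ℝ, Disjoint s (dI (j + 1) (2 * c)) → ν1 s = 0 := by
        intro s hs
        have h3 : ∀ᵐ t ∂ν1, t ∈ dI (j + 1) (2 * c) := a3.mono fun t ht => ht.1
        rw [ae_iff] at h3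
        exact measure_mono_null (fun t ht => (Set.disjoint_left.1 hs ht)) h3
      have hz2 : ∀ s : Set ℝ, Disjoint s (dI (j + 1) (2 * c + 1)) → ν2 s = 0 := by
        intro s hs
        have h3 : ∀ᵐ t ∂ν2, t ∈ dI (j + 1) (2 * c + 1) := b3.mono fun t ht => ht.1
        rw [ae_iff] at h3
        exact measure_mono_null (fun t ht => (Set.disjoint_left.1 hs ht)) h3
      by_cases hd : Disjoint (dI j' c') (dI (j + 1) (2 * c))
      · rw [hz1 _ hd, zero_add]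
        exact b4 j' h1 (by omega) c'
      · rw [Set.not_disjoint_iff] at hd
        obtain ⟨t, ht1, ht2⟩ := hd
        have h4 := nest h1 ht2 ht1
        rw [hz2 _ ((dI_disj j c).mono_left h4), add_zero]
        exact a4 j' h1 (by omega) c'
    have hfin : ν univ ≠ ∞ := by
      rw [hν, Measure.add_apply]
      exact (ENNReal.add_lt_top.2 ⟨a6.trans_lt ENNReal.coe_lt_top,
        b6.trans_lt ENNReal.coe_lt_top⟩).ne
    rcases le_or_gt (ν univ) (g j : ℝ≥0∞) with hM | hM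
    · refine ⟨A1 ∪ A2, ν, ?_, ?_, hae, ?_, ?_, hM⟩
      · intro p hp
        rcases Finset.mem_union.1 hp with h | h
        · exact ⟨by have := (a1 p h).1; omega, (a1 p h).2.trans hsub1⟩
        · exact ⟨by have := (b1 p h).1; omega, (b1 p h).2.trans hsub2⟩
      · intro t ht hP
        rw [hsp] at ht
        rcases ht with h | h
        · obtain ⟨p, hp, hpt⟩ := a2 t h hP
          exact ⟨p, Finset.mem_union_left _ hp, hpt⟩
        · obtain ⟨p, hp, hpt⟩ := b2 t h hP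
          exact ⟨p, Finset.mem_union_right _ hp, hpt⟩
      · intro j' h1 h2 c'
        rcases eq_or_lt_of_le h1 with h | h
        · subst h
          exact (measure_mono (subset_univ _)).trans hM
        · exact hdeep j' h h2 c'
      · calc ∑ p ∈ A1 ∪ A2, (g p.1 : ℝ≥0∞)
            ≤ ∑ p ∈ A1 ∪ A2, (g p.1 : ℝ≥0∞) + ∑ p ∈ A1 ∩ A2, (g p.1 : ℝ≥0∞) := le_self_add
          _ = ∑ p ∈ A1, (g p.1 : ℝ≥0∞) + ∑ p ∈ A2, (g p.1 : ℝ≥0∞) := Finset.sum_union_inter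
          _ ≤ ν1 univ + ν2 univ := add_le_add a5 b5
          _ = ν univ := by rw [hν, Measure.add_apply]
    · have hM0 : ν univ ≠ 0 := (zero_le.trans_lt hM).ne'
      set r : ℝ≥0∞ := (g j : ℝ≥0∞) / ν univ with hr
      have hr1 : r ≤ 1 := by
        rw [hr]; exact ENNReal.div_le_of_le_mul (by rw [one_mul]; exact hM.le)
      have htot : (r • ν) univ = g j := by
        rw [Measure.smul_apply, smul_eq_mul, hr, ENNReal.div_mul_cancel hM0 hfin]
      refine ⟨{(j, c)}, r • ν, ?_, ?_, Measure.ae_smul_measure hae _, ?_, ?_, htot.le⟩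
      · intro p hp
        rw [Finset.mem_singleton] at hp
        subst hp
        exact ⟨by simp, le_rfl⟩
      · intro t ht _
        exact ⟨(j, c), Finset.mem_singleton_self _, ht⟩
      · intro j' h1 h2 c'
        rcases eq_or_lt_of_le h1 with h | h
        · subst h
          exact (measure_mono (subset_univ _)).trans htot.le
        · rw [Measure.smul_apply, smul_eq_mul]
          exact (mul_le_of_le_one_left' hr1).trans (hdeep j' h h2 c')
      · rw [Finset.sum_singleton, htot]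

/-- **covers of the set of large oscillation** -/
theorem cover_bound (S : ℝ → ℂ) {w : ℕ → ℝ≥0} (hw : ∀ j, w j ≠ 0) (g : ℕ → ℝ≥0) (J : ℕ)
    (hgw : ∀ j < J, (g (j + 1) : ℝ≥0∞) ≤ (w j : ℝ≥0∞) ^ 2) {δ : ℝ≥0∞} :
    ∃ A : Finset (ℕ × ℕ), (∀ p ∈ A, p.1 ≤ J ∧ p.2 < 2 ^ p.1) ∧
      (∀ t ∈ Ico (0:ℝ) 1, δ < ‖S (dy J t) - S 0‖ₑ ^ 2 → ∃ p ∈ A, t ∈ dI p.1 p.2) ∧
      δ * ∑ p ∈ A, (g p.1 : ℝ≥0∞) ≤ (∑ j ∈ Finset.range J, (w j : ℝ≥0∞)) *
        ∑ j ∈ Finset.range J, (w j : ℝ≥0∞) * Aj S (j + 1) := by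
  have e01 : dI 0 0 = Ico (0:ℝ) 1 := by
    ext t; rw [mem_dI, mem_Ico]; simp
  obtain ⟨A, ν, h1, h2, h3, h4, h5, -⟩ := dual g (fun t => δ < ‖S (dy J t) - S 0‖ₑ ^ 2) J 0 0
  rw [e01] at h1 h2 h3
  refine ⟨A, fun p hp => ⟨by have := (h1 p hp).1; omega, ?_⟩, h2, ?_⟩
  · have hmem : (p.2 : ℝ) / 2 ^ p.1 ∈ dI p.1 p.2 := by
      rw [mem_dI]
      have hp2 : (0 : ℝ) < 2 ^ p.1 := by positivity
      rw [div_mul_cancel₀ _ hp2.ne']
      exact ⟨le_rfl, by linarith⟩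
    have h6 := (h1 p hp).2 hmem
    have hp2 : (0 : ℝ) < 2 ^ p.1 := by positivity
    have h7 : (p.2 : ℝ) < 2 ^ p.1 := by
      have := h6.2
      rwa [div_lt_one hp2] at this
    exact_mod_cast h7
  · have h6 := chain_fin S hw ν (g := id) measurable_id J (fun j hj c _ => ?_)
    · refine le_trans ?_ h6
      rw [preimage_id]
      have h7 : ∀ᵐ t ∂ν, t ∈ Ico (0:ℝ) 1 := h3.mono fun t ht => ht.1
      rw [Measure.restrict_eq_self_of_ae_mem h7]
      calc δ * ∑ p ∈ A, (g p.1 : ℝ≥0∞) ≤ δ * ν univ := mul_le_mul_right h5 _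
        _ = ∫⁻ _, δ ∂ν := by rw [lintegral_const]
        _ ≤ _ := lintegral_mono_ae (h3.mono fun t ht => ht.2.le)
    · rw [preimage_id]
      exact (h4 (j + 1) (Nat.zero_le _) (by omega) (c + 1)).trans (hgw j hj)

end Pool.Agent.P8H75.SR
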