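import Mathlib
import Pool.Agent.P8H75.SR.N
import Pool.Agent.P8H75.SR.T

/-! # Convergence of the ball partial sums outside thin sets of radii -/

set_option autoImplicit false

open MeasureTheory Metric Real Set Filter Topology
open scoped ENNReal NNReal

namespace Pool.Agent.P8H75.SR

open Pool.Agent.Helper93.Sph

/-- the oscillation on unit intervals tends to zero -/
lemma floor_osc {m : ℕ} {G : En (m + 1) → ℂ} (hG : MemLp G 2) {x : En (m + 1)}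
    (hx : energy G x < ⊤) :
    Tendsto (fun R : ℝ => ‖ps G R x - ps G (⌊R⌋₊ : ℝ) x‖) atTop (𝓝 0) := by
  have hcont := ps_cont_R hG x
  have hsel : ∀ k : ℕ, ∃ R ∈ Icc (1 * (k : ℝ)) (1 * ((k + 1 : ℕ) : ℝ)),
      ∀ R' ∈ Icc (1 * (k : ℝ)) (1 * ((k + 1 : ℕ) : ℝ)),
      ‖ps G R' x - ps G (1 * (k : ℝ)) x‖ ≤ ‖ps G R x - ps G (1 * (k : ℝ)) x‖ := by
    intro k
    have hne : (Icc (1 * (k : ℝ)) (1 * ((k + 1 : ℕ) : ℝ))).Nonempty := by
      refine ⟨1 * k, le_rfl, ?_⟩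
      push_cast; linarith
    obtain ⟨R, hR, hmax⟩ := isCompact_Icc.exists_isMaxOn hne
      (f := fun R => ‖ps G R x - ps G (1 * (k : ℝ)) x‖)
      ((hcont.sub continuous_const).norm.continuousOn)
    exact ⟨R, hR, fun R' hR' => hmax hR'⟩
  choose R hR hmax using hsel
  have hM := sel_tendsto hG hx (h := 1) (R := R) (fun k => (hR k).1) (fun k => (hR k).2)
  have hfl : Tendsto (fun R : ℝ => ⌊R⌋₊) atTop atTop := tendsto_nat_floor_atTop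
  have hsum := hM.comp hfl
  refine tendsto_of_tendsto_of_tendsto_of_le_of_le' tendsto_const_nhds hsum
    (Eventually.of_forall fun _ => norm_nonneg _) ?_
  filter_upwards [eventually_ge_atTop (0 : ℝ)] with r hr
  have hm : r ∈ Icc (1 * ((⌊r⌋₊ : ℕ) : ℝ)) (1 * ((⌊r⌋₊ + 1 : ℕ) : ℝ)) := by
    have a1 : (⌊r⌋₊ : ℝ) ≤ r := Nat.floor_le hr
    have a2 : r < (⌊r⌋₊ : ℝ) + 1 := Nat.lt_floor_add_one _
    constructor
    · linarith
    · push_cast; linarith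
  have h8 := hmax _ r hm
  simp only [Function.comp, one_mul] at h8 ⊢
  exact h8

/-- the interval of radii of scale `k`, level `j` and index `c` -/
def rI (u : ℕ × ℕ × ℕ) : Set ℝ :=
  Ico ((2:ℝ) ^ u.1 * (1 + (u.2.2 : ℝ) / 2 ^ u.2.1))
    ((2:ℝ) ^ u.1 * (1 + ((u.2.2 + 1 : ℕ) : ℝ) / 2 ^ u.2.1))

lemma pos_rI (k : ℕ) (p : ℕ × ℕ) : pos ((2:ℝ) ^ k) ⁻¹' (dI p.1 p.2) = rI (k, p) := by
  rw [dI, pos_pre (by positivity), rI]

/-- the weights -/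
noncomputable def wg (g : ℕ → ℕ → ℝ≥0) (k j : ℕ) : ℝ≥0 :=
  (if j < k then NNReal.sqrt (g k (j + 1)) else 0) + (1 / 2) ^ (j + 1)

lemma wg_ne (g : ℕ → ℕ → ℝ≥0) (k j : ℕ) : wg g k j ≠ 0 := by
  unfold wg; positivity

lemma wg_sq (g : ℕ → ℕ → ℝ≥0) {k j : ℕ} (h : j < k) :
    (g k (j + 1) : ℝ≥0∞) ≤ (wg g k j : ℝ≥0∞) ^ 2 := by
  have : g k (j + 1) ≤ wg g k j ^ 2 := by
    calc g k (j + 1) = NNReal.sqrt (g k (j + 1)) ^ 2 := (NNReal.sq_sqrt _).symm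
      _ ≤ _ := pow_le_pow_left' (by unfold wg; rw [if_pos h]; exact le_self_add) 2
  exact_mod_cast this

lemma wg_sum (g : ℕ → ℕ → ℝ≥0) {B : ℝ≥0}
    (hg : ∀ k, ∑ j ∈ Finset.range (k + 1), NNReal.sqrt (g k j) ≤ B) (k : ℕ) :
    ∑' j, (wg g k j : ℝ≥0∞) ≤ 1 + B := by
  unfold wg
  push_cast
  rw [ENNReal.tsum_add]
  have h2 : ∑' j : ℕ, (1 / 2 : ℝ≥0∞) ^ (j + 1) = 1 := by
    rw [one_div, ENNReal.tsum_geometric_add_one, ENNReal.one_sub_inv_two, inv_inv]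
    exact ENNReal.inv_mul_cancel (by norm_num) (by norm_num)
  rw [h2, add_comm]
  refine add_le_add le_rfl ?_
  rw [tsum_eq_sum (s := Finset.range k) (fun b hb => by
    have : ¬ b < k := fun h => hb (Finset.mem_range.2 h)
    simp [this])]
  have h3 : ∑ j ∈ Finset.range k, (if j < k then NNReal.sqrt (g k (j + 1)) else 0) ≤ B := by
    refine le_trans ?_ (hg k)
    rw [Finset.sum_range_succ']
    refine le_trans (Finset.sum_le_sum fun j hj => ?_) le_self_add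
    rw [if_pos (Finset.mem_range.1 hj)]
  have h4 : ((∑ j ∈ Finset.range k, (if j < k then NNReal.sqrt (g k (j + 1)) else 0) : ℝ≥0) : ℝ≥0∞)
      ≤ B := by exact_mod_cast h3
  refine le_trans (le_of_eq ?_) h4
  push_cast
  refine Finset.sum_congr rfl fun j _ => ?_
  split_ifs <;> rfl

/-- **thin exceptional sets**, deterministic part -/
theorem thin {m : ℕ} {G : En (m + 1) → ℂ} (hG : MemLp G 2) (g : ℕ → ℕ → ℝ≥0)
    {x : En (m + 1)} {L : ℂ} (hL : Tendsto (fun k : ℕ => ps G ((2:ℝ) ^ k) x) atTop (𝓝 L))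
    (hE : energy G x < ⊤)
    (hV : ∑' k : ℕ, Vw (wg g k) (pa G ((2:ℝ) ^ k) x) ≠ ∞) :
    ∃ A : Set (ℕ × ℕ × ℕ), (∀ u ∈ A, u.2.1 ≤ u.1 ∧ u.2.2 < 2 ^ u.2.1) ∧
      ∑' u : A, (g u.1.1 u.1.2.1 : ℝ≥0∞) < ∞ ∧
      Tendsto (fun R : ℝ => ps G R x) (atTop ⊓ 𝓟 (⋃ u ∈ A, rI u)ᶜ) (𝓝 L) := by
  classical
  set V : ℕ → ℝ≥0∞ := fun k => Vw (wg g k) (pa G ((2:ℝ) ^ k) x) with hVd
  -- tails
  have hT := ENNReal.tendsto_sum_nat_add V hV
  have hN : ∀ q : ℕ, ∃ N, ∑' k, V (k + N) ≤ (8⁻¹ : ℝ≥0∞) ^ q := by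
    intro q
    have h1 : (0 : ℝ≥0∞) < (8⁻¹ : ℝ≥0∞) ^ q :=
      ENNReal.pow_pos (ENNReal.inv_pos.2 (by norm_num)) q
    exact ((hT.eventually (ge_mem_nhds h1)).exists)
  choose N hN using hN
  have hcov := fun k q : ℕ => cover_bound (pa G ((2:ℝ) ^ k) x) (wg_ne g k) (g k) k
    (fun j hj => wg_sq g hj) (δ := (4⁻¹ : ℝ≥0∞) ^ q)
  choose A hA1 hA2 hA3 using hcov
  have hA4 : ∀ k q, ∑ p ∈ A k q, (g k p.1 : ℝ≥0∞) ≤ 4 ^ q * V k := by
    intro k q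
    have h1 : (4⁻¹ : ℝ≥0∞) ^ q * ∑ p ∈ A k q, (g k p.1 : ℝ≥0∞) ≤ V k :=
      (hA3 k q).trans (mul_le_mul' (ENNReal.sum_le_tsum _) (ENNReal.sum_le_tsum _))
    have h2 : (4 : ℝ≥0∞) ^ q * (4⁻¹ : ℝ≥0∞) ^ q = 1 := by
      rw [← mul_pow, ENNReal.mul_inv_cancel (by norm_num) (by norm_num), one_pow]
    calc ∑ p ∈ A k q, (g k p.1 : ℝ≥0∞)
        = 4 ^ q * ((4⁻¹ : ℝ≥0∞) ^ q * ∑ p ∈ A k q, (g k p.1 : ℝ≥0∞)) := by
          rw [← mul_assoc, h2, one_mul]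
      _ ≤ _ := mul_le_mul_right h1 _
  set AA : ℕ → ℕ → Set (ℕ × ℕ × ℕ) := fun q k =>
    {u | u.1 = k + N q ∧ u.2 ∈ A (k + N q) q} with hAA
  refine ⟨⋃ q, ⋃ k, AA q k, ?_, ?_, ?_⟩
  · intro u hu
    obtain ⟨q, hq⟩ := mem_iUnion.1 hu
    obtain ⟨k, hk1, hk2⟩ := mem_iUnion.1 hq
    rw [hk1]
    exact hA1 _ _ _ hk2
  · refine (ENNReal.tsum_iUnion_le_tsum (fun u : ℕ × ℕ × ℕ => (g u.1 u.2.1 : ℝ≥0∞)) _).trans_lt ?_
    have h1 : ∀ q, ∑' u : ↑(⋃ k, AA q k), (g u.1.1 u.1.2.1 : ℝ≥0∞) ≤ (2⁻¹ : ℝ≥0∞) ^ q := by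
      intro q
      refine (ENNReal.tsum_iUnion_le_tsum
        (fun u : ℕ × ℕ × ℕ => (g u.1 u.2.1 : ℝ≥0∞)) _).trans ?_
      have h2 : ∀ k, ∑' u : ↑(AA q k), (g u.1.1 u.1.2.1 : ℝ≥0∞) ≤ 4 ^ q * V (k + N q) := by
        intro k
        refine le_trans ?_ (hA4 (k + N q) q)
        have h3 : AA q k = ((A (k + N q) q).image (fun p => ((k + N q, p) : ℕ × ℕ × ℕ)) :
            Set (ℕ × ℕ × ℕ)) := by
          ext u
          simp only [hAA, mem_ofPred_eq, Finset.coe_image, mem_image, Finset.mem_coe]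
          constructor
          · rintro ⟨h4, h5⟩
            exact ⟨u.2, h5, by rw [← h4]⟩
          · rintro ⟨p, hp, rfl⟩
            exact ⟨rfl, hp⟩
        rw [h3, Finset.tsum_subtype' _ (fun u : ℕ × ℕ × ℕ => (g u.1 u.2.1 : ℝ≥0∞)),
          Finset.sum_image (fun a _ b _ hab => by simpa using hab)]
      refine (ENNReal.tsum_le_tsum h2).trans ?_
      rw [ENNReal.tsum_mul_left]
      refine (mul_le_mul_right (hN q) _).trans (le_of_eq ?_)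
      rw [← mul_pow]
      congr 1
      rw [← div_eq_mul_inv, ENNReal.div_eq_inv_mul, show (8 : ℝ≥0∞) = 4 * 2 by norm_num,
        ENNReal.mul_inv (by norm_num) (by norm_num), mul_comm (4⁻¹ : ℝ≥0∞), mul_assoc,
        ENNReal.inv_mul_cancel (by norm_num) (by norm_num), mul_one]
    refine (ENNReal.tsum_le_tsum h1).trans_lt ?_
    rw [ENNReal.tsum_geometric_two]
    norm_num
  · rw [Metric.tendsto_nhds]
    intro ε hε
    rw [eventually_inf_principal]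
    obtain ⟨q, hq⟩ := exists_pow_lt_of_lt_one (show 0 < ε / 3 by positivity)
      (by norm_num : (1 / 2 : ℝ) < 1)
    have hosc := (floor_osc hG hE).eventually (gt_mem_nhds (show (0:ℝ) < ε / 3 by positivity))
    have hL' : ∀ᶠ k : ℕ in atTop, ‖ps G ((2:ℝ) ^ k) x - L‖ < ε / 3 := by
      have := (tendsto_iff_norm_sub_tendsto_zero.1 hL).eventually
        (gt_mem_nhds (show (0:ℝ) < ε / 3 by positivity))
      exact this
    obtain ⟨K, hK⟩ := eventually_atTop.1 hL'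
    filter_upwards [hosc, eventually_ge_atTop ((2:ℝ) ^ (max K (N q)))] with R hR1 hR2 hR3
    have hR0 : (1:ℝ) ≤ R := le_trans (one_le_pow₀ (by norm_num)) hR2
    obtain ⟨k, hk1, hk2⟩ := exists_nat_pow_near hR0 (by norm_num : (1:ℝ) < 2)
    have hkm : max K (N q) ≤ k := by
      by_contra hcon
      push Not at hcon
      have : (2:ℝ) ^ (k + 1) ≤ (2:ℝ) ^ (max K (N q)) := pow_le_pow_right₀ (by norm_num) hcon
      linarith
    have hkK : K ≤ k := (le_max_left _ _).trans hkm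
    have hkN : N q ≤ k := (le_max_right _ _).trans hkm
    have hp : (0:ℝ) < (2:ℝ) ^ k := by positivity
    set t : ℝ := pos ((2:ℝ) ^ k) R with ht
    have htm : t ∈ Ico (0:ℝ) 1 := by
      have : R ∈ pos ((2:ℝ) ^ k) ⁻¹' (Ico 0 1) := by
        rw [pos_pre hp]
        refine ⟨by simpa using hk1, ?_⟩
        rw [pow_succ] at hk2
        linarith
      exact this
    have hno : ¬ ((4⁻¹ : ℝ≥0∞) ^ q < ‖pa G ((2:ℝ) ^ k) x (dy k t) - pa G ((2:ℝ) ^ k) x 0‖ₑ ^ 2) := by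
      intro hlt
      obtain ⟨p, hp1, hp2⟩ := hA2 k q t htm hlt
      refine hR3 (mem_iUnion₂.2 ⟨(k, p), ?_, ?_⟩)
      · refine mem_iUnion.2 ⟨q, mem_iUnion.2 ⟨k - N q, ?_⟩⟩
        rw [hAA]
        simp only [mem_ofPred_eq]
        rw [Nat.sub_add_cancel hkN]
        exact ⟨rfl, hp1⟩
      · rw [← pos_rI]; exact hp2
    -- identify the point
    have hpt : pa G ((2:ℝ) ^ k) x (dy k t) = ps G (⌊R⌋₊ : ℝ) x := by
      unfold pa dy
      congr 1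
      have e1 : t * 2 ^ k = R - ((2 ^ k : ℕ) : ℝ) := by
        rw [ht, pos]; push_cast; field_simp
      rw [e1, Nat.floor_sub_natCast]
      have h5 : 2 ^ k ≤ ⌊R⌋₊ := Nat.le_floor (by push_cast; exact hk1)
      rw [Nat.cast_sub h5]
      push_cast
      field_simp
      ring
    rw [hpt, pa_zero] at hno
    have h6 : ‖ps G (⌊R⌋₊ : ℝ) x - ps G ((2:ℝ) ^ k) x‖ ≤ (1 / 2) ^ q := by
      have h7 := not_lt.1 hno
      have e2 : (4⁻¹ : ℝ≥0∞) ^ q = ENNReal.ofReal (((1 / 2 : ℝ) ^ q) ^ 2) := by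
        rw [← pow_mul, mul_comm q 2, pow_mul, ENNReal.ofReal_pow (by norm_num)]
        congr 1
        rw [show ((1 / 2 : ℝ)) ^ 2 = 4⁻¹ by norm_num, ENNReal.ofReal_inv_of_pos (by norm_num)]
        norm_num
      rw [e2, ← ofReal_norm, ← ENNReal.ofReal_pow (norm_nonneg _),
        ENNReal.ofReal_le_ofReal_iff (by positivity)] at h7
      exact le_of_sq_le_sq h7 (by positivity)
    have h8 := hK k hkK
    rw [dist_eq_norm]
    calc ‖ps G R x - L‖ = ‖(ps G R x - ps G (⌊R⌋₊ : ℝ) x) +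
          ((ps G (⌊R⌋₊ : ℝ) x - ps G ((2:ℝ) ^ k) x) + (ps G ((2:ℝ) ^ k) x - L))‖ := by
          congr 1; ring
      _ ≤ ‖ps G R x - ps G (⌊R⌋₊ : ℝ) x‖ + (‖ps G (⌊R⌋₊ : ℝ) x - ps G ((2:ℝ) ^ k) x‖ +
          ‖ps G ((2:ℝ) ^ k) x - L‖) :=
          (norm_add_le _ _).trans (add_le_add le_rfl (norm_add_le _ _))
      _ < ε / 3 + (ε / 3 + ε / 3) := by
          have := hR1
          linarith
      _ = ε := by ring

/-- **thin exceptional sets** -/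
theorem thin_ae {m : ℕ} {G : En (m + 1) → ℂ} (hG : MemLp G 2) (g : ℕ → ℕ → ℝ≥0) {B : ℝ≥0}
    (hg : ∀ k, ∑ j ∈ Finset.range (k + 1), NNReal.sqrt (g k j) ≤ B) :
    ∀ᵐ x : En (m + 1), ∃ L : ℂ, Tendsto (fun k : ℕ => ps G ((2:ℝ) ^ k) x) atTop (𝓝 L) ∧
      ∃ A : Set (ℕ × ℕ × ℕ), (∀ u ∈ A, u.2.1 ≤ u.1 ∧ u.2.2 < 2 ^ u.2.1) ∧
      ∑' u : A, (g u.1.1 u.1.2.1 : ℝ≥0∞) < ∞ ∧
      Tendsto (fun R : ℝ => ps G R x) (atTop ⊓ 𝓟 (⋃ u ∈ A, rI u)ᶜ) (𝓝 L) := by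
  have h1 : ∀ᵐ x : En (m + 1), ∑' k : ℤ, Vw (wg g k.toNat) (pa G ((2:ℝ) ^ k) x) < ∞ := by
    refine ae_lt_top (Measurable.tsum fun k => Vw_meas hG _ _) ?_
    refine ((Vw_sum hG (fun k => wg g k.toNat) (1 + B) fun k => wg_sum g hg _).trans_lt ?_).ne
    exact ENNReal.mul_lt_top (ENNReal.pow_lt_top (by simp)) (sq_fin hG).lt_top
  filter_upwards [lac_conv hG, energy_fin hG, h1] with x hL hE hV
  obtain ⟨L, hL⟩ := hL
  refine ⟨L, hL, thin hG g hL hE ?_⟩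
  have h2 : ∑' k : ℕ, Vw (wg g k) (pa G ((2:ℝ) ^ k) x) ≤
      ∑' k : ℤ, Vw (wg g k.toNat) (pa G ((2:ℝ) ^ k) x) := by
    have h3 := ENNReal.tsum_comp_le_tsum_of_injective (f := fun k : ℕ => (k : ℤ))
      Nat.cast_injective (fun k : ℤ => Vw (wg g k.toNat) (pa G ((2:ℝ) ^ k) x))
    simpa using h3
  exact (h2.trans_lt hV).ne

end Pool.Agent.P8H75.SR
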