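import Mathlib
import Pool.Agent.P8H75.SR.Q

/-! # Uniform convergence of the averages over spread out measures of radii -/

set_option autoImplicit false

open MeasureTheory Metric Real Set Filter Topology
open scoped ENNReal NNReal

namespace Pool.Agent.P8H75.SR

open Pool.Agent.Helper93.Sph

lemma enorm_add3_sq_le (a b c : ℂ) : ‖a + b + c‖ₑ ^ 2 ≤ 4 * (‖a‖ₑ ^ 2 + ‖b‖ₑ ^ 2 + ‖c‖ₑ ^ 2) := by
  calc ‖a + b + c‖ₑ ^ 2 ≤ 2 * (‖a + b‖ₑ ^ 2 + ‖c‖ₑ ^ 2) := enorm_add_sq_le _ _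
    _ ≤ 2 * (2 * (‖a‖ₑ ^ 2 + ‖b‖ₑ ^ 2) + 2 * ‖c‖ₑ ^ 2) := by
        refine mul_le_mul_right (add_le_add (enorm_add_sq_le _ _) ?_) _
        exact le_mul_of_one_le_left' (by norm_num)
    _ = _ := by ring

/-- position of the floor -/
lemma pa_floor {n : ℕ} (G : En n → ℂ) (x : En n) {k : ℕ} {R : ℝ} (hk1 : (2:ℝ) ^ k ≤ R) :
    pa G ((2:ℝ) ^ k) x (dy k (pos ((2:ℝ) ^ k) R)) = ps G (⌊R⌋₊ : ℝ) x := by
  have hp : (0:ℝ) < (2:ℝ) ^ k := by positivity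
  unfold pa dy
  congr 1
  have e1 : pos ((2:ℝ) ^ k) R * 2 ^ k = R - ((2 ^ k : ℕ) : ℝ) := by
    rw [pos]; push_cast; field_simp
  rw [e1, Nat.floor_sub_natCast]
  have h5 : 2 ^ k ≤ ⌊R⌋₊ := Nat.le_floor (by push_cast; exact hk1)
  rw [Nat.cast_sub h5]
  push_cast
  field_simp
  ring

/-- one block -/
lemma spread_block {m : ℕ} {G : En (m + 1) → ℂ} (hG : MemLp G 2) (h : ℕ → ℕ → ℝ≥0)
    (x : En (m + 1)) (L : ℂ) (k : ℕ) {η : ℝ≥0∞}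
    (h1 : ∀ R, (2:ℝ) ^ k ≤ R → ‖ps G R x - ps G (⌊R⌋₊ : ℝ) x‖ₑ ^ 2 ≤ η)
    (h2 : ‖ps G ((2:ℝ) ^ k) x - L‖ₑ ^ 2 ≤ η) (ν : Measure ℝ)
    (hν : ∀ j ≤ k, ∀ a : ℝ, (2:ℝ) ^ k ≤ a → ν (Icc a (a + 2 ^ k / 2 ^ j)) ≤ h k j) :
    ∫⁻ R in Ico ((2:ℝ) ^ k) (2 * 2 ^ k), ‖ps G R x - L‖ₑ ^ 2 ∂ν ≤
      4 * (2 * η * h k 0 + Vw (wg h k) (pa G ((2:ℝ) ^ k) x)) := by
  have hp : (0:ℝ) < (2:ℝ) ^ k := by positivity
  have hmass : ν (Ico ((2:ℝ) ^ k) (2 * 2 ^ k)) ≤ h k 0 := by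
    refine (measure_mono ?_).trans (hν 0 (Nat.zero_le k) _ le_rfl)
    refine Ico_subset_Icc_self.trans (Icc_subset_Icc le_rfl (le_of_eq ?_))
    ring
  have hch : ∫⁻ R in Ico ((2:ℝ) ^ k) (2 * 2 ^ k), ‖ps G (⌊R⌋₊ : ℝ) x - ps G ((2:ℝ) ^ k) x‖ₑ ^ 2 ∂ν ≤
      Vw (wg h k) (pa G ((2:ℝ) ^ k) x) := by
    have h3 := chain_fin (pa G ((2:ℝ) ^ k) x) (wg_ne h k) ν (pos_meas ((2:ℝ) ^ k)) k
      (fun j hj c _ => ?_)
    · have e : pos ((2:ℝ) ^ k) ⁻¹' (Ico 0 1) = Ico ((2:ℝ) ^ k) (2 * 2 ^ k) := by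
        rw [pos_pre hp]; congr 1 <;> ring
      rw [e] at h3
      refine le_trans (le_of_eq ?_) (h3.trans (mul_le_mul' (ENNReal.sum_le_tsum _)
        (ENNReal.sum_le_tsum _)))
      refine setLIntegral_congr_fun measurableSet_Ico fun R hR => ?_
      rw [pa_floor G x hR.1, pa_zero]
    · rw [dI, pos_pre hp]
      set a : ℝ := (2:ℝ) ^ k * (1 + ((c + 1 : ℕ) : ℝ) / 2 ^ (j + 1)) with ha
      have ha1 : (2:ℝ) ^ k ≤ a :=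
        le_mul_of_one_le_right hp.le (le_add_of_nonneg_right (by positivity))
      refine (measure_mono ?_).trans ((hν (j + 1) hj a ha1).trans (wg_sq h hj))
      refine Ico_subset_Icc_self.trans (Icc_subset_Icc le_rfl (le_of_eq ?_))
      rw [ha]; push_cast; field_simp; ring
  have hms1 : Measurable fun R : ℝ => ‖ps G (⌊R⌋₊ : ℝ) x - ps G ((2:ℝ) ^ k) x‖ₑ ^ 2 := by
    have h4 : Measurable fun R : ℝ => ((⌊R⌋₊ : ℕ) : ℝ) := by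
      have h5 : Measurable fun n : ℕ => (n : ℝ) := measurable_from_nat
      exact h5.comp Nat.measurable_floor
    exact (((ps_cont_R hG x).measurable.comp h4).sub measurable_const).enorm.pow_const 2
  calc ∫⁻ R in Ico ((2:ℝ) ^ k) (2 * 2 ^ k), ‖ps G R x - L‖ₑ ^ 2 ∂ν
      ≤ ∫⁻ R in Ico ((2:ℝ) ^ k) (2 * 2 ^ k),
        4 * (2 * η + ‖ps G (⌊R⌋₊ : ℝ) x - ps G ((2:ℝ) ^ k) x‖ₑ ^ 2) ∂ν := by
        refine setLIntegral_mono' measurableSet_Ico fun R hR => ?_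
        have h6 := enorm_add3_sq_le (ps G R x - ps G (⌊R⌋₊ : ℝ) x)
          (ps G (⌊R⌋₊ : ℝ) x - ps G ((2:ℝ) ^ k) x) (ps G ((2:ℝ) ^ k) x - L)
        have e : ps G R x - ps G (⌊R⌋₊ : ℝ) x + (ps G (⌊R⌋₊ : ℝ) x - ps G ((2:ℝ) ^ k) x) +
          (ps G ((2:ℝ) ^ k) x - L) = ps G R x - L := by ring
        rw [e] at h6
        refine h6.trans (mul_le_mul_right ?_ _)
        calc ‖ps G R x - ps G (⌊R⌋₊ : ℝ) x‖ₑ ^ 2 + ‖ps G (⌊R⌋₊ : ℝ) x - ps G ((2:ℝ) ^ k) x‖ₑ ^ 2 +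
              ‖ps G ((2:ℝ) ^ k) x - L‖ₑ ^ 2
            ≤ η + ‖ps G (⌊R⌋₊ : ℝ) x - ps G ((2:ℝ) ^ k) x‖ₑ ^ 2 + η :=
              add_le_add (add_le_add (h1 R hR.1) le_rfl) h2
          _ = _ := by ring
    _ = 4 * (2 * η * ν (Ico ((2:ℝ) ^ k) (2 * 2 ^ k)) +
        ∫⁻ R in Ico ((2:ℝ) ^ k) (2 * 2 ^ k), ‖ps G (⌊R⌋₊ : ℝ) x - ps G ((2:ℝ) ^ k) x‖ₑ ^ 2 ∂ν) := by
        rw [lintegral_const_mul' _ _ (by norm_num), lintegral_add_left measurable_const,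
          setLIntegral_const]
    _ ≤ _ := by gcongr

/-- **uniform convergence of spread out averages** -/
theorem spread_ae {m : ℕ} {G : En (m + 1) → ℂ} (hG : MemLp G 2) (h : ℕ → ℕ → ℝ≥0) {B : ℝ≥0}
    (hh : ∀ k, ∑ j ∈ Finset.range (k + 1), NNReal.sqrt (h k j) ≤ B) :
    ∀ᵐ x : En (m + 1), ∃ L : ℂ, Tendsto (fun k : ℕ => ps G ((2:ℝ) ^ k) x) atTop (𝓝 L) ∧
      ∀ ε : ℝ≥0∞, 0 < ε → ∀ᶠ k : ℕ in atTop, ∀ ν : Measure ℝ,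
        (∀ j ≤ k, ∀ a : ℝ, (2:ℝ) ^ k ≤ a → ν (Icc a (a + 2 ^ k / 2 ^ j)) ≤ h k j) →
        ∫⁻ R in Ico ((2:ℝ) ^ k) (2 * 2 ^ k), ‖ps G R x - L‖ₑ ^ 2 ∂ν ≤ ε := by
  have h1 : ∀ᵐ x : En (m + 1), ∑' k : ℤ, Vw (wg h k.toNat) (pa G ((2:ℝ) ^ k) x) < ∞ := by
    refine ae_lt_top (Measurable.tsum fun k => Vw_meas hG _ _) ?_
    refine ((Vw_sum hG (fun k => wg h k.toNat) (1 + B) fun k => wg_sum h hh _).trans_lt ?_).ne
    exact ENNReal.mul_lt_top (ENNReal.pow_lt_top (by simp)) (sq_fin hG).lt_top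
  filter_upwards [lac_conv hG, energy_fin hG, h1] with x hL hE hV
  obtain ⟨L, hL⟩ := hL
  refine ⟨L, hL, fun ε hε => ?_⟩
  have h2 : ∑' k : ℕ, Vw (wg h k) (pa G ((2:ℝ) ^ k) x) ≠ ∞ := by
    have h3 := ENNReal.tsum_comp_le_tsum_of_injective (f := fun k : ℕ => (k : ℤ))
      Nat.cast_injective (fun k : ℤ => Vw (wg h k.toNat) (pa G ((2:ℝ) ^ k) x))
    simp only [Int.toNat_natCast, zpow_natCast] at h3
    exact (h3.trans_lt hV).ne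
  have h4 := ENNReal.tendsto_atTop_zero_of_tsum_ne_top h2
  -- mass bound
  have hb : ∀ k, (h k 0 : ℝ≥0∞) ≤ (B : ℝ≥0∞) ^ 2 := by
    intro k
    have h5 : NNReal.sqrt (h k 0) ≤ B := by
      refine le_trans ?_ (hh k)
      exact Finset.single_le_sum (f := fun j => NNReal.sqrt (h k j)) (fun _ _ => zero_le)
        (Finset.mem_range.2 (Nat.succ_pos k))
    have h6 : h k 0 ≤ B ^ 2 := by
      calc h k 0 = NNReal.sqrt (h k 0) ^ 2 := (NNReal.sq_sqrt _).symm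
        _ ≤ _ := pow_le_pow_left' h5 2
    exact_mod_cast h6
  -- the small quantities
  have hoscR : Tendsto (fun R : ℝ => ‖ps G R x - ps G (⌊R⌋₊ : ℝ) x‖ₑ ^ 2) atTop (𝓝 0) := by
    have h7 := floor_osc hG hE
    have h8 : Tendsto (fun R : ℝ => ENNReal.ofReal (‖ps G R x - ps G (⌊R⌋₊ : ℝ) x‖ ^ 2)) atTop
        (𝓝 0) := by
      have := ENNReal.tendsto_ofReal (h7.pow 2)
      simpa using this
    refine h8.congr fun R => ?_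
    rw [ENNReal.ofReal_pow (norm_nonneg _), ofReal_norm]
  have hLk : Tendsto (fun k : ℕ => ‖ps G ((2:ℝ) ^ k) x - L‖ₑ ^ 2) atTop (𝓝 0) := by
    have h7 := tendsto_iff_norm_sub_tendsto_zero.1 hL
    have h8 : Tendsto (fun k : ℕ => ENNReal.ofReal (‖ps G ((2:ℝ) ^ k) x - L‖ ^ 2)) atTop
        (𝓝 0) := by
      have := ENNReal.tendsto_ofReal (h7.pow 2)
      simpa using this
    refine h8.congr fun R => ?_
    rw [ENNReal.ofReal_pow (norm_nonneg _), ofReal_norm]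
  -- choose thresholds
  obtain ⟨η, hη0, hη⟩ : ∃ η : ℝ≥0∞, 0 < η ∧ 4 * (2 * η * (B : ℝ≥0∞) ^ 2 + η) ≤ ε := by
    have h9 : Tendsto (fun η : ℝ≥0∞ => 4 * (2 * η * (B : ℝ≥0∞) ^ 2 + η)) (𝓝 0) (𝓝 0) := by
      have hB : (B : ℝ≥0∞) ^ 2 ≠ ∞ := ENNReal.pow_ne_top ENNReal.coe_ne_top
      have t1 : Tendsto (fun η : ℝ≥0∞ => 2 * η * (B : ℝ≥0∞) ^ 2) (𝓝 0) (𝓝 (2 * 0 * (B : ℝ≥0∞) ^ 2)) :=
        ENNReal.Tendsto.mul_const (ENNReal.Tendsto.const_mul tendsto_id (Or.inr (by norm_num)))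
          (Or.inr hB)
      have t2 := (t1.add (tendsto_id (α := ℝ≥0∞) (x := 𝓝 0)))
      have t3 := ENNReal.Tendsto.const_mul (a := 4) t2 (Or.inr (by norm_num))
      simpa using t3
    have h10 := h9.eventually (ge_mem_nhds hε)
    rw [ENNReal.nhds_zero_basis.eventually_iff] at h10
    obtain ⟨r, hr, hr2⟩ := h10
    obtain ⟨η', hη'1, hη'2⟩ := exists_between hr
    exact ⟨η', hη'1, hr2 hη'2⟩
  have e1 := hLk.eventually (ge_mem_nhds hη0)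
  have e2 := h4.eventually (ge_mem_nhds hη0)
  obtain ⟨R0, hR0⟩ := eventually_atTop.1 (hoscR.eventually (ge_mem_nhds hη0))
  have e3 : ∀ᶠ k : ℕ in atTop, R0 ≤ (2:ℝ) ^ k :=
    (tendsto_pow_atTop_atTop_of_one_lt (by norm_num : (1:ℝ) < 2)).eventually_ge_atTop R0
  filter_upwards [e1, e2, e3] with k k1 k2 k3 ν hν
  refine (spread_block hG h x L k (η := η) (fun R hR => hR0 R (k3.trans hR)) k1 ν hν).trans ?_
  refine le_trans ?_ hη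
  gcongr
  exact hb k

end Pool.Agent.P8H75.SR
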